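import Mathlib

/-!
Endomorphisms of a field without nonconstant invariants: elements with finite-dimensional orbits.
-/

set_option autoImplicit false

namespace Pool.Agent.X332.SP

open Module IntermediateField

variable {K : Type} [Field K] [Algebra ℂ K]

/-- the operator `s - μ` -/
noncomputable def opr (s : K →ₐ[ℂ] K) (μ : ℂ) : Module.End ℂ K := s.toLinearMap - μ • 1

theorem opr_apply (s : K →ₐ[ℂ] K) (μ : ℂ) (a : K) : opr s μ a = s a - μ • a := rfl

variable {s : K →ₐ[ℂ] K}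

/-- forward differences -/
theorem opr_fwd {m : K} (hm : s m = m + 1) (n : ℕ) (g : K → K) (hg : ∀ x, s (g x) = g (s x)) :
    ((opr s 1) ^ n) (g m) = ((fwdDiff (1 : K))^[n] g) m := by
  induction n generalizing g with
  | zero => rfl
  | succ n ih =>
    rw [pow_succ, Module.End.mul_apply, Function.iterate_succ_apply]
    have h1 : opr s 1 (g m) = fwdDiff (1 : K) g m := by
      rw [opr_apply, one_smul, hg, hm]
      rfl
    rw [h1]
    refine ih (fwdDiff (1 : K) g) fun x => ?_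
    change s (g (x + 1) - g x) = g (s x + 1) - g (s x)
    rw [map_sub, hg, hg, map_add, map_one]

theorem opr_pow_fac {m : K} (hm : s m = m + 1) (n : ℕ) :
    ((opr s 1) ^ n) (m ^ n) = (n.factorial : K) := by
  rw [opr_fwd hm n (fun x => x ^ n) fun x => map_pow s x n, fwdDiff_iter_eq_factorial]
  rfl

theorem opr_pow_zero {m : K} (hm : s m = m + 1) {j n : ℕ} (h : j < n) :
    ((opr s 1) ^ n) (m ^ j) = 0 := by
  rw [opr_fwd hm n (fun x => x ^ j) fun x => map_pow s x j, fwdDiff_iter_pow_eq_zero_of_lt h]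
  rfl

/-- multiplication by an eigenvector -/
theorem opr_mul {τ : K} {μ : ℂ} (hτ : s τ = μ • τ) (k : ℕ) (b : K) :
    ((opr s μ) ^ k) (b * τ) = (μ ^ k) • ((((opr s 1) ^ k) b) * τ) := by
  induction k generalizing b with
  | zero => rw [pow_zero, pow_zero, pow_zero, one_smul]; rfl
  | succ k ih =>
    rw [pow_succ, Module.End.mul_apply, pow_succ (opr s 1), Module.End.mul_apply]
    have h1 : opr s μ (b * τ) = μ • ((opr s 1 b) * τ) := by
      rw [opr_apply, opr_apply, one_smul, map_mul, hτ, sub_mul, smul_sub, mul_smul_comm]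
    rw [h1, map_smul, ih, smul_smul, pow_succ, mul_comm]

/-- multiplicative independence modulo constants of eigenvectors -/
structure MI (s : K →ₐ[ℂ] K) {r : ℕ} (t : Fin r → K) : Prop where
  ne : ∀ i, t i ≠ 0
  eig : ∀ i, ∃ μ : ℂ, s (t i) = μ • t i
  ind : ∀ (m : Fin r → ℤ) (c : ℂ), ∏ i, t i ^ m i = algebraMap ℂ K c → m = 0

theorem eig_ne {τ : K} {μ : ℂ} (hτ : s τ = μ • τ) (h0 : τ ≠ 0) : μ ≠ 0 := by
  rintro rfl
  rw [zero_smul] at hτ
  exact h0 ((map_eq_zero s).1 hτ)

theorem eig_zpow {τ : K} {μ : ℂ} (hτ : s τ = μ • τ) (m : ℤ) : s (τ ^ m) = (μ ^ m) • τ ^ m := by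
  rw [map_zpow₀, hτ, Algebra.smul_def, mul_zpow, Algebra.smul_def, map_zpow₀]

theorem eig_prod {r : ℕ} {t : Fin r → K} {μ : Fin r → ℂ} (h : ∀ i, s (t i) = μ i • t i)
    (m : Fin r → ℤ) : s (∏ i, t i ^ m i) = (∏ i, μ i ^ m i) • ∏ i, t i ^ m i := by
  rw [map_prod]
  simp only [eig_zpow (h _), Algebra.smul_def]
  rw [Finset.prod_mul_distrib, map_prod]

/-- **Algebraic independence.** -/
theorem MI.algInd (hc : ∀ a : K, s a = a → ∃ c : ℂ, algebraMap ℂ K c = a) {r : ℕ} {t : Fin r → K}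
    (h : MI s t) (R0 : Subalgebra ℂ K) (hR : ∀ b ∈ R0, ∃ k : ℕ, ((opr s 1) ^ k) b = 0) :
    AlgebraicIndependent R0 t := by
  classical
  choose μ hμ using h.eig
  have hμ0 : ∀ i, μ i ≠ 0 := fun i => eig_ne (hμ i) (h.ne i)
  rw [algebraicIndependent_iff]
  intro p hp
  by_contra hp0
  let ev : (Fin r →₀ ℕ) → ℂ := fun d => ∏ i, μ i ^ (d i : ℤ)
  have hM : Function.Injective ev := by
    intro d d' hd
    have h1 : s (∏ i, t i ^ ((d i : ℤ) - d' i)) = ∏ i, t i ^ ((d i : ℤ) - d' i) := by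
      rw [eig_prod hμ]
      have h2 : ∏ i, μ i ^ ((d i : ℤ) - d' i) = 1 := by
        have h3 : ∏ i, μ i ^ ((d i : ℤ) - d' i) = ev d / ev d' := by
          simp only [ev]
          rw [← Finset.prod_div_distrib]
          exact Finset.prod_congr rfl fun i _ => zpow_sub₀ (hμ0 i) _ _
        rw [h3, hd, div_self]
        exact Finset.prod_ne_zero_iff.2 fun i _ => zpow_ne_zero _ (hμ0 i)
      rw [h2, one_smul]
    obtain ⟨c, hc'⟩ := hc _ h1
    have h2 := h.ind _ c hc'.symm
    ext i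
    have h3 := congrFun h2 i
    simp only [Pi.zero_apply] at h3
    omega
  let v : p.support → K := fun d => ((p.coeff (d : Fin r →₀ ℕ) : R0) : K) *
    ∏ i, t i ^ ((d : Fin r →₀ ℕ) i : ℤ)
  have hli : LinearIndependent ℂ v := by
    refine iSupIndep.linearIndependent
      (fun d : p.support => Module.End.maxGenEigenspace (s.toLinearMap : Module.End ℂ K) (ev d))
      ((Module.End.independent_maxGenEigenspace (s.toLinearMap : Module.End ℂ K)).comp
        (hM.comp Subtype.val_injective)) (fun d => ?_) fun d => ?_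
    · rw [Module.End.mem_maxGenEigenspace]
      obtain ⟨k, hk⟩ := hR _ (p.coeff (d : Fin r →₀ ℕ)).2
      refine ⟨k, ?_⟩
      have h1 := opr_mul (eig_prod hμ fun i => ((d : Fin r →₀ ℕ) i : ℤ)) k
        ((p.coeff (d : Fin r →₀ ℕ) : R0) : K)
      rw [hk, zero_mul, smul_zero] at h1
      exact h1
    · refine mul_ne_zero ?_ (Finset.prod_ne_zero_iff.2 fun i _ => zpow_ne_zero _ (h.ne i))
      intro h0
      exact (MvPolynomial.mem_support_iff.1 d.2) (Subtype.ext h0)
  have hsum : ∑ d : p.support, (1 : ℂ) • v d = 0 := by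
    rw [MvPolynomial.aeval_def, MvPolynomial.eval₂_eq'] at hp
    rw [← hp, ← Finset.sum_coe_sort p.support
      (fun d => algebraMap R0 K (p.coeff d) * ∏ i, t i ^ d i)]
    refine Finset.sum_congr rfl fun d _ => ?_
    rw [one_smul]
    simp only [v, zpow_natCast]
    rfl
  obtain ⟨d, hd⟩ := MvPolynomial.support_nonempty.2 hp0
  exact one_ne_zero ((Fintype.linearIndependent_iff.1 hli) (fun _ => 1) hsum ⟨d, hd⟩)

/-- coordinates adapted to `s` -/
structure Adapted (s : K →ₐ[ℂ] K) {w : ℕ} (u : Fin w → K) (L : Set (Fin w)) : Prop where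
  bas : IsTranscendenceBasis ℂ u
  each : ∀ l ∈ L, (∃ μ : ℂ, s (u l) = μ • u l) ∨ s (u l) = u l + 1
  eig : ∀ a : K, a ≠ 0 → (∃ μ : ℂ, s a = μ • a) → ∃ q : ℕ, 0 < q ∧ ∃ (m : Fin w → ℤ) (c : ℂ),
    (∀ l, m l ≠ 0 → l ∈ L ∧ s (u l) ≠ u l + 1) ∧ a ^ q = c • ∏ l, u l ^ m l
  add : (∃ a : K, s a = a + 1) → ∃ l ∈ L, s (u l) = u l + 1

theorem exists_full (hc : ∀ a : K, s a = a → ∃ c : ℂ, algebraMap ℂ K c = a) {w : ℕ}
    (hw : Algebra.trdeg ℂ K = w) : ∃ (r : ℕ) (t : Fin r → K), MI s t ∧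
      ∀ a : K, a ≠ 0 → (∃ μ : ℂ, s a = μ • a) → ∃ q : ℕ, 0 < q ∧ ∃ (m : Fin r → ℤ) (c : ℂ),
        a ^ q = c • ∏ l, t l ^ m l := by
  classical
  have hbot : ∀ b ∈ (⊥ : Subalgebra ℂ K), ∃ k : ℕ, ((opr s 1) ^ k) b = 0 := by
    rintro _ ⟨c, rfl⟩
    refine ⟨1, ?_⟩
    rw [pow_one, opr_apply, one_smul]
    change s (algebraMap ℂ K c) - algebraMap ℂ K c = 0
    rw [s.commutes, sub_self]
  have hbound : ∀ r : ℕ, (∃ t : Fin r → K, MI s t) → r ≤ w := by
    rintro r ⟨t, ht⟩
    have h1 := ht.algInd hc ⊥ hbot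
    have h2 : AlgebraicIndependent ℂ t :=
      h1.restrictScalars (algebraMap ℂ (⊥ : Subalgebra ℂ K)).injective
    have h3 := h2.lift_cardinalMk_le_trdeg
    rw [hw] at h3
    simpa using h3
  have h0 : ∃ t : Fin 0 → K, MI s t :=
    ⟨Fin.elim0, fun i => i.elim0, fun i => i.elim0, fun m c _ => Subsingleton.elim _ _⟩
  let P : ℕ → Prop := fun r => ∃ t : Fin r → K, MI s t
  set r := Nat.findGreatest P w with hr
  obtain ⟨t, ht⟩ : P r := Nat.findGreatest_spec (P := P) (Nat.zero_le w) h0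
  refine ⟨r, t, ht, fun a ha hea => ?_⟩
  have hnot : ¬ MI s (Fin.cons a t : Fin (r + 1) → K) := by
    intro h
    have h1 := hbound _ ⟨_, h⟩
    have h2 : r + 1 ≤ r := Nat.le_findGreatest (P := P) h1 ⟨_, h⟩
    omega
  have hex : ∃ (m : Fin (r + 1) → ℤ) (c : ℂ), ∏ i, (Fin.cons a t : Fin (r + 1) → K) i ^ m i =
      algebraMap ℂ K c ∧ m ≠ 0 := by
    by_contra hcon
    push Not at hcon
    refine hnot ⟨fun i => ?_, fun i => ?_, fun m c h => hcon m c h⟩
    · refine Fin.cases ?_ (fun i => ?_) i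
      · exact ha
      · exact ht.ne i
    · refine Fin.cases ?_ (fun i => ?_) i
      · exact hea
      · exact ht.eig i
  obtain ⟨m, c, hmc, hm0⟩ := hex
  rw [Fin.prod_univ_succ] at hmc
  simp only [Fin.cons_zero, Fin.cons_succ] at hmc
  have hp0 : ∏ i, t i ^ m i.succ ≠ 0 :=
    Finset.prod_ne_zero_iff.2 fun i _ => zpow_ne_zero _ (ht.ne i)
  have hm00 : m 0 ≠ 0 := by
    intro h
    rw [h, zpow_zero, one_mul] at hmc
    have h1 := ht.ind (fun i => m i.succ) c hmc
    apply hm0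
    funext i
    refine Fin.cases h (fun i => ?_) i
    exact congrFun h1 i
  have hinv : (∏ i, t i ^ m i.succ)⁻¹ = ∏ i, t i ^ (-m i.succ) := by
    rw [← Finset.prod_inv_distrib]
    exact Finset.prod_congr rfl fun i _ => (zpow_neg _ _).symm
  have ha0 : a ^ m 0 = c • ∏ i, t i ^ (-m i.succ) := by
    rw [← hinv, Algebra.smul_def, ← hmc, mul_assoc, mul_inv_cancel₀ hp0, mul_one]
  rcases lt_or_gt_of_ne hm00 with h | h
  · refine ⟨(-m 0).toNat, by omega, fun i => m i.succ, c⁻¹, ?_⟩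
    have h1 : a ^ ((-m 0).toNat) = (a ^ m 0)⁻¹ := by
      rw [← zpow_natCast, ← zpow_neg]
      congr 1
      omega
    rw [h1, ha0, Algebra.smul_def, mul_inv, Algebra.smul_def, map_inv₀, ← hinv, inv_inv]
  · refine ⟨(m 0).toNat, by omega, fun i => -m i.succ, c, ?_⟩
    have h1 : a ^ ((m 0).toNat) = a ^ m 0 := by
      rw [← zpow_natCast]
      congr 1
      omega
    rw [h1, ha0]

/-- extension to a transcendence basis -/
theorem exists_ext {w : ℕ} (hw : Algebra.trdeg ℂ K = w) {ι : Type} {g : ι → K}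
    (hg : AlgebraicIndependent ℂ g) :
    ∃ u : Fin w → K, IsTranscendenceBasis ℂ u ∧ ∀ i, ∃ l, u l = g i := by
  obtain ⟨B, hgB, hB⟩ := exists_isTranscendenceBasis_superset hg.coe_range
  have hcard := hB.cardinalMk_eq_trdeg
  rw [hw] at hcard
  have hfin : Finite B := by
    rw [← Cardinal.lt_aleph0_iff_finite, hcard]
    exact Cardinal.natCast_lt_aleph0
  obtain ⟨m', ⟨e⟩⟩ := Finite.exists_equiv_fin B
  obtain rfl : m' = w := by
    rw [Cardinal.mk_congr e, Cardinal.mk_fin] at hcard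
    exact_mod_cast hcard
  refine ⟨fun i => (e.symm i : K), hB.comp_equiv e.symm, fun i => ⟨e ⟨g i, hgB ⟨i, rfl⟩⟩, ?_⟩⟩
  exact congrArg Subtype.val (e.symm_apply_apply ⟨g i, hgB ⟨i, rfl⟩⟩)

theorem MI.not_add {r : ℕ} {t : Fin r → K} (h : MI s t) (i : Fin r) : s (t i) ≠ t i + 1 := by
  classical
  intro h1
  obtain ⟨μ, hμ⟩ := h.eig i
  have h2 : algebraMap ℂ K (μ - 1) * t i = 1 := by
    rw [map_sub, sub_mul, ← Algebra.smul_def, ← hμ, h1, map_one, one_mul, add_sub_cancel_left]
  have h3 : t i = algebraMap ℂ K (μ - 1)⁻¹ := by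
    rw [map_inv₀]
    exact eq_inv_of_mul_eq_one_right h2
  have h4 := h.ind (Pi.single i 1) (μ - 1)⁻¹ (by
    rw [Finset.prod_eq_single i]
    · rw [Pi.single_eq_same, zpow_one, h3]
    · intro j _ hj
      rw [Pi.single_eq_of_ne hj, zpow_zero]
    · intro hi
      exact absurd (Finset.mem_univ i) hi)
  have h5 := congrFun h4 i
  rw [Pi.single_eq_same] at h5
  exact one_ne_zero h5

/-- **Existence of adapted coordinates.** -/
theorem exists_adapted (hc : ∀ a : K, s a = a → ∃ c : ℂ, algebraMap ℂ K c = a) {w : ℕ}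
    (hw : Algebra.trdeg ℂ K = w) : ∃ (u : Fin w → K) (L : Set (Fin w)), Adapted s u L := by
  classical
  obtain ⟨r, t, ht, hfull⟩ := exists_full hc hw
  obtain ⟨ι, g, hg, hgt, hgt', hgadd⟩ : ∃ (ι : Type) (g : ι → K), AlgebraicIndependent ℂ g ∧
      (∀ i, ∃ j, g j = t i) ∧ (∀ j, (∃ μ : ℂ, s (g j) = μ • g j) ∨ s (g j) = g j + 1) ∧
      ((∃ a : K, s a = a + 1) → ∃ j, s (g j) = g j + 1) := by
    by_cases hadd : ∃ a : K, s a = a + 1
    · obtain ⟨m, hm⟩ := hadd
      let x : Unit → K := fun _ => m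
      have hx : AlgebraicIndependent ℂ x := by
        rw [algebraicIndependent_unique_type_iff]
        intro halg
        have h4 := IsAlgClosed.degree_eq_one_of_irreducible ℂ
          (minpoly.irreducible (halg : IsAlgebraic ℂ m).isIntegral)
        obtain ⟨c, hcm⟩ := minpoly.mem_range_of_degree_eq_one ℂ _ h4
        have hcm' : algebraMap ℂ K c = m := hcm
        rw [← hcm', s.commutes] at hm
        exact one_ne_zero (left_eq_add.1 hm)
      have hR : ∀ b ∈ Algebra.adjoin ℂ (Set.range x), ∃ k : ℕ, ((opr s 1) ^ k) b = 0 := by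
        intro b hb
        rw [Algebra.adjoin_range_eq_range_aeval] at hb
        obtain ⟨p, rfl⟩ := hb
        refine ⟨p.totalDegree + 1, ?_⟩
        rw [AlgHom.toRingHom_eq_coe, RingHom.coe_coe, MvPolynomial.aeval_def,
          MvPolynomial.eval₂_eq', map_sum]
        refine Finset.sum_eq_zero fun d hd => ?_
        rw [← Algebra.smul_def, map_smul]
        have h1 : ∏ i, x i ^ d i = m ^ d () := by
          rw [Fintype.prod_unique]
        have h2 : d () ≤ p.totalDegree := by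
          have h3 := MvPolynomial.le_totalDegree hd
          rwa [Finsupp.sum_fintype _ _ (fun _ => rfl), Fintype.sum_unique] at h3
        rw [h1, opr_pow_zero hm (by omega), smul_zero]
      refine ⟨Fin r ⊕ Unit, Sum.elim t x, AlgebraicIndependent.sumElim_iff.2
        ⟨hx, ht.algInd hc _ hR⟩, fun i => ⟨Sum.inl i, rfl⟩, ?_, fun _ => ⟨Sum.inr (), hm⟩⟩
      rintro (j | j)
      · exact Or.inl (ht.eig j)
      · exact Or.inr hm
    · have hbot : ∀ b ∈ (⊥ : Subalgebra ℂ K), ∃ k : ℕ, ((opr s 1) ^ k) b = 0 := by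
        rintro _ ⟨c, rfl⟩
        refine ⟨1, ?_⟩
        rw [pow_one, opr_apply, one_smul]
        change s (algebraMap ℂ K c) - algebraMap ℂ K c = 0
        rw [s.commutes, sub_self]
      exact ⟨Fin r, t, (ht.algInd hc ⊥ hbot).restrictScalars
        (algebraMap ℂ (⊥ : Subalgebra ℂ K)).injective, fun i => ⟨i, rfl⟩,
        fun j => Or.inl (ht.eig j), fun h => absurd h hadd⟩
  obtain ⟨u, hu, hul⟩ := exists_ext hw hg
  refine ⟨u, {l | ∃ j, u l = g j}, hu, ?_, ?_, ?_⟩
  · rintro l ⟨j, hj⟩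
    rw [hj]
    exact hgt' j
  · intro a ha hea
    obtain ⟨q, hq, m, c, h⟩ := hfull a ha hea
    have hσ : ∀ i, ∃ l, u l = t i := by
      intro i
      obtain ⟨j, hj⟩ := hgt i
      obtain ⟨l, hl⟩ := hul j
      exact ⟨l, hl.trans hj⟩
    choose σ hσ using hσ
    have htinj : Function.Injective t := by
      have hbot : ∀ b ∈ (⊥ : Subalgebra ℂ K), ∃ k : ℕ, ((opr s 1) ^ k) b = 0 := by
        rintro _ ⟨c, rfl⟩
        refine ⟨1, ?_⟩
        rw [pow_one, opr_apply, one_smul]
        change s (algebraMap ℂ K c) - algebraMap ℂ K c = 0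
        rw [s.commutes, sub_self]
      exact (ht.algInd hc ⊥ hbot).injective
    have hσi : Function.Injective σ := by
      intro i i' h1
      apply htinj
      rw [← hσ, ← hσ, h1]
    refine ⟨q, hq, Function.extend σ m 0, c, fun l hl => ?_, ?_⟩
    · by_cases hl' : ∃ i, σ i = l
      · obtain ⟨i, rfl⟩ := hl'
        obtain ⟨j, hj⟩ := hgt i
        refine ⟨⟨j, (hσ i).trans hj.symm⟩, ?_⟩
        rw [hσ]
        exact ht.not_add i
      · rw [Function.extend_apply' _ _ _ hl'] at hl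
        exact absurd rfl hl
    · rw [h]
      congr 1
      refine Fintype.prod_of_injective σ hσi _ _ (fun l hl => ?_) fun i => ?_
      · rw [Function.extend_apply' _ _ _ hl]
        exact zpow_zero _
      · rw [hσi.extend_apply, hσ]
  · intro h
    obtain ⟨j, hj⟩ := hgadd h
    obtain ⟨l, hl⟩ := hul j
    exact ⟨l, ⟨j, hl⟩, by rw [hl, hj]⟩

section

variable {w : ℕ} {u : Fin w → K} {L : Set (Fin w)}

/-- the field of the special coordinates -/
noncomputable def sf (u : Fin w → K) (L : Set (Fin w)) : IntermediateField ℂ K :=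
  adjoin ℂ (u '' L)

theorem mem_sf {l : Fin w} (hl : l ∈ L) : u l ∈ sf u L := subset_adjoin ℂ _ ⟨l, hl, rfl⟩

theorem alg_eig (h : Adapted s u L) {a : K} (ha : ∃ μ : ℂ, s a = μ • a) :
    IsAlgebraic (sf u L) a := by
  by_cases h0 : a = 0
  · rw [h0]
    exact isAlgebraic_zero
  obtain ⟨q, hq, m, c, hm, h1⟩ := h.eig a h0 ha
  refine IsAlgebraic.of_pow hq ?_
  have h2 : a ^ q ∈ sf u L := by
    rw [h1]
    refine (sf u L).smul_mem (prod_mem fun l _ => ?_)
    by_cases h3 : m l = 0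
    · rw [h3, zpow_zero]
      exact (sf u L).one_mem
    · exact zpow_mem (mem_sf (hm l h3).1) _
  exact isAlgebraic_algebraMap (R := sf u L) (A := K) ⟨_, h2⟩

theorem alg_poly (hc : ∀ a : K, s a = a → ∃ c : ℂ, algebraMap ℂ K c = a) (h : Adapted s u L) :
    ∀ (r : ℕ) (v : K), ((opr s 1) ^ r) v = 0 → IsAlgebraic (sf u L) v := by
  intro r
  induction r with
  | zero =>
    intro v hv
    have h1 : v = 0 := hv
    rw [h1]
    exact isAlgebraic_zero
  | succ r ih =>
    intro v hv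
    rw [pow_succ', Module.End.mul_apply, opr_apply, one_smul, sub_eq_zero] at hv
    obtain ⟨c, hc'⟩ := hc _ hv
    have hconst : ∀ c : ℂ, IsAlgebraic (sf u L) (algebraMap ℂ K c) := fun c =>
      isAlgebraic_algebraMap (R := sf u L) (A := K) ⟨_, (sf u L).algebraMap_mem c⟩
    by_cases hr : r = 0
    · subst hr
      have h1 : v = algebraMap ℂ K c := hc'.symm
      rw [h1]
      exact hconst c
    by_cases hc0 : c = 0
    · refine ih v ?_
      rw [← hc', hc0, map_zero]
    have hadd : ∃ a : K, s a = a + 1 := by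
      refine ⟨c⁻¹ • ((opr s 1) ^ (r - 1)) v, ?_⟩
      have h1 : ((opr s 1) ^ r) v = opr s 1 (((opr s 1) ^ (r - 1)) v) := by
        rw [← Module.End.mul_apply, ← pow_succ']
        congr 2
        omega
      rw [h1, opr_apply, one_smul] at hc'
      have h2 : s (((opr s 1) ^ (r - 1)) v) = ((opr s 1) ^ (r - 1)) v + algebraMap ℂ K c := by
        rw [hc']
        ring
      rw [map_smul, h2, smul_add]
      congr 1
      rw [Algebra.smul_def, ← map_mul, inv_mul_cancel₀ hc0, map_one]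
    obtain ⟨l, hl, hm⟩ := h.add hadd
    set m := u l with hml
    have hfac : (r.factorial : ℂ) ≠ 0 := Nat.cast_ne_zero.2 r.factorial_ne_zero
    have h1 : IsAlgebraic (sf u L) (v - (c / r.factorial) • m ^ r) := by
      refine ih _ ?_
      have hK : CharZero K := charZero_of_injective_algebraMap (algebraMap ℂ K).injective
      rw [map_sub, map_smul, opr_pow_fac hm, ← hc', Algebra.smul_def, map_div₀, map_natCast,
        div_mul_cancel₀, sub_self]
      exact Nat.cast_ne_zero.2 r.factorial_ne_zero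
    have h2 : IsAlgebraic (sf u L) ((c / r.factorial) • m ^ r) := by
      have h3 : (c / r.factorial) • m ^ r ∈ sf u L :=
        (sf u L).smul_mem (pow_mem (mem_sf hl) _)
      exact isAlgebraic_algebraMap (R := sf u L) (A := K) ⟨_, h3⟩
    have h3 := h1.add h2
    rwa [sub_add_cancel] at h3

/-- **Elements with finite-dimensional orbits are algebraic over the special coordinates.** -/
theorem alg_fin (hc : ∀ a : K, s a = a → ∃ c : ℂ, algebraMap ℂ K c = a) (h : Adapted s u L)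
    {F : Submodule ℂ K} (hF : F.FG) (hst : ∀ a ∈ F, s a ∈ F) {v : K} (hv : v ∈ F) :
    IsAlgebraic (sf u L) v := by
  classical
  have hFf : Module.Finite ℂ F := Module.Finite.iff_fg.2 hF
  let T : Module.End ℂ F := LinearMap.restrict s.toLinearMap hst
  have hcoe : ∀ (μ : ℂ) (k : ℕ) (x : F), (((T - μ • 1) ^ k) x : K) = ((opr s μ) ^ k) (x : K) := by
    intro μ k
    induction k with
    | zero => intro x; rfl
    | succ k ih =>
      intro x
      rw [pow_succ, Module.End.mul_apply, ih, pow_succ, Module.End.mul_apply]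
      rfl
  have hgen : ∀ (μ : ℂ) (k : ℕ) (x : K), ((opr s μ) ^ k) x = 0 → IsAlgebraic (sf u L) x := by
    intro μ k x hx
    by_cases hx0 : x = 0
    · rw [hx0]
      exact isAlgebraic_zero
    have hex : ∃ k, ((opr s μ) ^ k) x = 0 := ⟨k, hx⟩
    set k0 := Nat.find hex with hk0
    have hk0s : ((opr s μ) ^ k0) x = 0 := Nat.find_spec hex
    have hk00 : k0 ≠ 0 := by
      intro h0
      rw [h0] at hk0s
      exact hx0 hk0s
    set a := ((opr s μ) ^ (k0 - 1)) x with ha
    have ha0 : a ≠ 0 := Nat.find_min hex (m := k0 - 1) (by omega)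
    have hea : s a = μ • a := by
      have h1 : opr s μ a = 0 := by
        rw [ha, ← Module.End.mul_apply, ← pow_succ', ← hk0s]
        congr 2
        omega
      rw [opr_apply, sub_eq_zero] at h1
      exact h1
    have hμ0 := eig_ne hea ha0
    have h2 := opr_mul hea k0 (x / a)
    rw [div_mul_cancel₀ _ ha0, hk0s] at h2
    have h3 : ((opr s 1) ^ k0) (x / a) = 0 := by
      have h4 := h2.symm
      rw [smul_eq_zero] at h4
      exact (mul_eq_zero.1 (h4.resolve_left (pow_ne_zero _ hμ0))).resolve_right ha0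
    have h4 := (alg_poly hc h k0 _ h3).mul (alg_eig h ⟨μ, hea⟩)
    rwa [div_mul_cancel₀ _ ha0] at h4
  have htop : (⟨v, hv⟩ : F) ∈ ⨆ μ, T.maxGenEigenspace μ := by
    rw [Module.End.iSup_maxGenEigenspace_eq_top]
    exact Submodule.mem_top
  have key : ∀ x : F, x ∈ ⨆ μ, T.maxGenEigenspace μ → IsAlgebraic (sf u L) (x : K) := by
    intro x hx
    refine Submodule.iSup_induction _ (motive := fun x : F => IsAlgebraic (sf u L) (x : K)) hx
      (fun μ x hx => ?_) isAlgebraic_zero fun x y hx hy => hx.add hy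
    obtain ⟨k, hk⟩ := (Module.End.mem_maxGenEigenspace _ _ _).1 hx
    refine hgen μ k x ?_
    rw [← hcoe, hk]
    rfl
  exact key _ htop

end

end Pool.Agent.X332.SP
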