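import Mathlib
import Pool.Agent.X332.GT.Tens
import Pool.Agent.W619.Y.Parts
import Pool.Agent.Y172.Cov2

/-!
Places over the zeros of a coordinate function, and the derivations which are dual to the
coordinates.
-/

set_option autoImplicit false

namespace Pool.Agent.X332.SP

open FF IntermediateField Module Pool.Agent.W602.GT Pool.Agent.TH143.GT Pool.Agent.X332.GT

variable {k K : Type} [Field k] [Field K] [Algebra k K]

/-- a transcendental function has a zero -/
theorem exists_zero {C : Type} [Field C] [Algebra C K] [CharZero C] [IsFF C K] {x : K}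
    (hx : Transcendental C x) : ∃ P : Place C K, 0 < P.ord x := by
  by_contra hcon
  push Not at hcon
  have hx' : Transcendental C x⁻¹ := fun h => hx (by
    have := h.inv
    rwa [inv_inv] at this)
  have h1 := ddeg_polar_pos (k := C) (K := K) hx'
  have h2 : polar (k := C) x⁻¹ = 0 := by
    ext P
    rw [polar_apply, P.ord_inv]
    have := hcon P
    simp only [Finsupp.coe_zero, Pi.zero_apply]
    omega
  rw [h2, ddeg_zero] at h1
  exact lt_irrefl _ h1

section

variable {C : IntermediateField k K} {Q : Place C K}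

/-- A derivation which is trivial on `C`, regular and maps the maximal ideal into itself maps the
valuation ring to the maximal ideal. -/
theorem kill [CharZero k] [IsFF C K] {D : Derivation k K K} (hC : ∀ c ∈ C, D c = 0)
    (hD : ∀ f, Ge (rs Q) 1 f → Ge (rs Q) 1 (D f)) {f : K} (hf : Q.Reg f) :
    Ge (rs Q) 1 (D f) := by
  have hc2 : CharZero C := charZero_of_injective_algebraMap (algebraMap k C).injective
  let D' : Derivation C K K :=
    { toFun := D
      map_add' := D.map_add
      map_smul' := fun c x => by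
        have h1 : D (algebraMap C K c) = 0 := hC _ c.2
        rw [RingHom.id_apply, Algebra.smul_def c x, D.leibniz, h1, smul_zero, add_zero,
          Algebra.smul_def c (D x), smul_eq_mul]
      map_one_eq_zero' := D.map_one_eq_zero
      leibniz' := D.leibniz }
  set p := minpoly C (Q.red f) with hp
  have hint : IsIntegral C (Q.red f) := IsIntegral.of_finite C _
  have hsep : p.Separable := (minpoly.irreducible hint).separable
  have hred : ∀ q : Polynomial C, Q.Reg (Polynomial.aeval f q) ∧
      Q.red (Polynomial.aeval f q) = Polynomial.aeval (Q.red f) q := by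
    intro q
    induction q using Polynomial.induction_on with
    | C a =>
      rw [Polynomial.aeval_C, Polynomial.aeval_C]
      exact ⟨Q.reg_const a, rfl⟩
    | add p q hp hq =>
      rw [map_add, map_add, Q.red_add hp.1 hq.1, hp.2, hq.2]
      exact ⟨Q.reg_add hp.1 hq.1, rfl⟩
    | monomial n a h =>
      have e1 : Polynomial.aeval f (Polynomial.C a * Polynomial.X ^ (n + 1)) =
          Polynomial.aeval f (Polynomial.C a * Polynomial.X ^ n) * f := by
        rw [pow_succ, ← mul_assoc, map_mul, Polynomial.aeval_X]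
      have e2 : Polynomial.aeval (Q.red f) (Polynomial.C a * Polynomial.X ^ (n + 1)) =
          Polynomial.aeval (Q.red f) (Polynomial.C a * Polynomial.X ^ n) * Q.red f := by
        rw [pow_succ, ← mul_assoc, map_mul, Polynomial.aeval_X]
      rw [e1, e2, Q.red_mul h.1 hf, h.2]
      exact ⟨Q.reg_mul h.1 hf, rfl⟩
  have h1 : Ge (rs Q) 1 (Polynomial.aeval f p) := by
    have h2 : Q.red (Polynomial.aeval f p) = 0 := by
      rw [(hred p).2]
      exact minpoly.aeval C _
    rcases (Q.red_eq_zero_iff (hred p).1).1 h2 with h3 | h3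
    · exact Or.inl h3
    · exact Or.inr h3
  have h2 : D (Polynomial.aeval f p) =
      Polynomial.aeval f (Polynomial.derivative p) * D f := by
    have h3 := D'.map_aeval p f
    rw [smul_eq_mul] at h3
    exact h3
  have h3 := hD _ h1
  rw [h2] at h3
  have h4 : ¬ Q.red (Polynomial.aeval f (Polynomial.derivative p)) = 0 := by
    rw [(hred _).2]
    exact hsep.aeval_derivative_ne_zero (minpoly.aeval C _)
  rw [Q.red_eq_zero_iff (hred _).1] at h4
  push Not at h4
  have h5 : Q.ord (Polynomial.aeval f (Polynomial.derivative p)) = 0 := by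
    have h6 := (Place.reg_iff Q h4.1).1 (hred _).1
    have := h4.2
    omega
  have h6 : Ge (rs Q) 0 (Polynomial.aeval f (Polynomial.derivative p))⁻¹ := by
    right
    rw [(rs Q).ord_inv]
    have h7 : (rs Q).ord (Polynomial.aeval f (Polynomial.derivative p)) = 0 := h5
    omega
  have h7 := h6.mul h3
  rw [zero_add, ← mul_assoc, inv_mul_cancel₀ h4.1, one_mul] at h7
  exact h7

variable {τ : K}

/-- Derivations preserving `C`, such that `D τ = c τ`, are logarithmic at the zeros of `τ`. -/
theorem log_zero [CharZero k] [hFF : IsFF C K] (hτ : Transcendental C τ)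
    {D : Derivation k K K} (hC : ∀ c ∈ C, D c ∈ C) {c₀ : K} (hc₀ : c₀ ∈ C) (hD : D τ = c₀ * τ)
    (hQ : 0 < Q.ord τ) : DerLog (rs Q) D := by
  classical
  have hF0 : ∀ c ∈ C, c ≠ 0 → (rs Q).ord c = 0 := fun c hc h0 => rs_triv Q hc h0
  have hQ' : 0 < (rs Q).ord τ := hQ
  have hτ0 : τ ≠ 0 := by
    rintro rfl
    rw [Q.ord_zero] at hQ
    exact lt_irrefl _ hQ
  have hreg : ∀ c ∈ C, (rs Q).Reg c := by
    intro c hc
    by_cases h0 : c = 0
    · exact Or.inl h0
    · exact Or.inr (hF0 c hc h0).ge
  -- polynomials are mapped to polynomials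
  have hpol : ∀ p : Polynomial C, ∃ q : Polynomial C,
      D (Polynomial.aeval τ p) = Polynomial.aeval τ q := by
    intro p
    induction p using Polynomial.induction_on with
    | C a =>
      refine ⟨Polynomial.C ⟨D (a : K), hC _ a.2⟩, ?_⟩
      rw [Polynomial.aeval_C, Polynomial.aeval_C]
      rfl
    | add p q hp hq =>
      obtain ⟨p', hp'⟩ := hp
      obtain ⟨q', hq'⟩ := hq
      exact ⟨p' + q', by rw [map_add, map_add, hp', hq', map_add]⟩
    | monomial n a h =>
      obtain ⟨q, hq⟩ := h
      refine ⟨q * Polynomial.X + Polynomial.C (⟨c₀, hc₀⟩ : C) *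
        (Polynomial.C a * Polynomial.X ^ n * Polynomial.X), ?_⟩
      have e1 : Polynomial.aeval τ (Polynomial.C a * Polynomial.X ^ (n + 1)) =
          Polynomial.aeval τ (Polynomial.C a * Polynomial.X ^ n) * τ := by
        rw [pow_succ, ← mul_assoc, map_mul, Polynomial.aeval_X]
      have e2 : Polynomial.aeval τ (q * Polynomial.X + Polynomial.C (⟨c₀, hc₀⟩ : C) *
          (Polynomial.C a * Polynomial.X ^ n * Polynomial.X)) =
          Polynomial.aeval τ q * τ + c₀ * (Polynomial.aeval τ (Polynomial.C a *
            Polynomial.X ^ n) * τ) := by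
        rw [map_add, map_mul (Polynomial.aeval τ) q, Polynomial.aeval_X,
          map_mul (Polynomial.aeval τ) (Polynomial.C (⟨c₀, hc₀⟩ : C)), Polynomial.aeval_C,
          map_mul (Polynomial.aeval τ) (Polynomial.C a * Polynomial.X ^ n), Polynomial.aeval_X]
        rfl
      rw [e1, e2, D.leibniz, hD, hq, smul_eq_mul, smul_eq_mul]
      ring
  -- logarithmic derivatives of polynomials
  have hlog : ∀ (n : ℕ) (p : Polynomial C), p.natDegree ≤ n → p ≠ 0 →
      (rs Q).Reg (D (Polynomial.aeval τ p) / Polynomial.aeval τ p) := by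
    intro n
    induction n with
    | zero =>
      intro p hp hp0
      rw [Polynomial.eq_C_of_natDegree_eq_zero (Nat.le_zero.1 hp), Polynomial.aeval_C]
      exact hreg _ (C.div_mem (hC _ (p.coeff 0).2) (p.coeff 0).2)
    | succ n ih =>
      intro p hp hp0
      by_cases h0 : p.coeff 0 = 0
      · have h1 : p = p.divX * Polynomial.X := by
          conv_lhs => rw [← Polynomial.divX_mul_X_add p, h0, map_zero, add_zero]
        have h2 : p.divX ≠ 0 := by
          intro h
          rw [h, zero_mul] at h1
          exact hp0 h1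
        have h3 : p.divX.natDegree ≤ n := by
          rw [Polynomial.natDegree_divX_eq_natDegree_tsub_one]
          omega
        have h4 : Polynomial.aeval τ p = Polynomial.aeval τ p.divX * τ := by
          conv_lhs => rw [h1]
          rw [map_mul, Polynomial.aeval_X]
        have h5 : Polynomial.aeval τ p.divX ≠ 0 := fun h =>
          h2 ((transcendental_iff.1 hτ) _ h)
        have h6 : D (Polynomial.aeval τ p) / Polynomial.aeval τ p =
            D (Polynomial.aeval τ p.divX) / Polynomial.aeval τ p.divX + c₀ := by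
          rw [h4, D.leibniz, hD, smul_eq_mul, smul_eq_mul]
          field_simp
          ring
        rw [h6]
        exact (rs Q).reg_add (ih _ h3 h2) (hreg _ hc₀)
      · obtain ⟨q, hq⟩ := hpol p
        obtain ⟨h1, h2⟩ := ord_unit (P := rs Q) hF0 hQ' h0
        have h3 : Ge (rs Q) 0 (Polynomial.aeval τ p)⁻¹ := by
          right
          rw [(rs Q).ord_inv, h2, neg_zero]
        have h4 := (ge_aeval (P := rs Q) hF0 hQ' q).mul h3
        rw [add_zero, ← div_eq_mul_inv, ← hq] at h4
        exact h4
  have hfin := IsFF.finite hτ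
  have htow : IsScalarTower k C⟮τ⟯ K := IsScalarTower.of_algebraMap_eq fun x => rfl
  obtain ⟨e, P0, hP0⟩ := exists_over (K := C⟮τ⟯) (rs Q)
    ⟨⟨τ, mem_adjoin_simple_self C τ⟩, by
      change (rs Q).ord τ ≠ 0
      omega⟩
  refine Pool.Agent.W619.Y.pLOG.{0, 0} k C⟮τ⟯ K P0 (rs Q) e hP0 D fun x => ?_
  obtain ⟨r, s, hrs⟩ := (mem_adjoin_simple_iff C (x : K)).1 x.2
  change (rs Q).Reg (D (x : K) / (x : K))
  by_cases hx0 : (x : K) = 0
  · rw [hx0, div_zero]
    exact (rs Q).reg_zero
  have hr0 : Polynomial.aeval τ r ≠ 0 := by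
    intro h
    rw [h, zero_div] at hrs
    exact hx0 hrs
  have hs0 : Polynomial.aeval τ s ≠ 0 := by
    intro h
    rw [h, div_zero] at hrs
    exact hx0 hrs
  have hr : r ≠ 0 := by
    rintro rfl
    exact hr0 (map_zero _)
  have hs : s ≠ 0 := by
    rintro rfl
    exact hs0 (map_zero _)
  have h1 : D (x : K) / (x : K) = D (Polynomial.aeval τ r) / Polynomial.aeval τ r +
      -(D (Polynomial.aeval τ s) / Polynomial.aeval τ s) := by
    have h2 : (x : K) * Polynomial.aeval τ s = Polynomial.aeval τ r := by
      rw [hrs, div_mul_cancel₀ _ hs0]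
    have h3 : D (Polynomial.aeval τ r) = x * D (Polynomial.aeval τ s) +
        Polynomial.aeval τ s * D (x : K) := by
      rw [← h2, D.leibniz, smul_eq_mul, smul_eq_mul]
    rw [h3, ← h2]
    field_simp
    ring
  rw [h1]
  exact (rs Q).reg_add (hlog _ r le_rfl hr) ((rs Q).reg_neg (hlog _ s le_rfl hs))

end

/-- **A place over the zero or the pole of a coordinate**, and the dual derivations. -/
theorem exists_coord [CharZero k] [Algebra.EssFiniteType k K] {n : ℕ} {u : Fin (n + 1) → K}
    {E : Fin (n + 1) → Derivation k K K} (hu : Dual u E) (l : Fin (n + 1)) {τ : K}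
    (hτ : τ = u l ∨ τ = (u l)⁻¹) :
    ∃ Q : Place k K, Divisorial (n + 1) Q ∧ 0 < Q.ord τ ∧ (∀ i, i ≠ l → Q.ord (u i) = 0) ∧
      (∀ i, i ≠ l → DerReg Q (E i)) ∧
      ∃ π : K, π ≠ 0 ∧ Q.ord π = 1 ∧ DerReg Q ((π⁻¹ * u l) • E l) := by
  classical
  set C := adjoin k (u '' ((Finset.univ.erase l : Finset (Fin (n + 1))) : Set (Fin (n + 1))))
    with hC
  have hFF : IsFF C K := isFF_adjoin hu.1 (i := l) (fun j => by simp)
  have hc2 : CharZero C := charZero_of_injective_algebraMap (algebraMap k C).injective
  have htr0 : Transcendental C (u l) := trans_adjoin hu.1.1 (by simp)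
  have hne : ∀ i, u i ≠ 0 := fun i => hu.1.1.ne_zero i
  have htr : Transcendental C τ := by
    rcases hτ with h | h
    · rwa [h]
    · rw [h]
      intro h1
      apply htr0
      have := h1.inv
      rwa [inv_inv] at this
  obtain ⟨Q, hQ⟩ := exists_zero htr
  have hmem : ∀ i, i ≠ l → u i ∈ C := fun i hi =>
    subset_adjoin k _ ⟨_, by simp [hi], rfl⟩
  have hpres : ∀ (D : Derivation k K K), (∀ i, i ≠ l → D (u i) ∈ C) → ∀ c ∈ C, D c ∈ C := by
    intro D hD c hc
    rw [hC] at hc
    induction hc using IntermediateField.adjoin_induction with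
    | mem x hx =>
      obtain ⟨j, hj, rfl⟩ := hx
      exact hD j (by simpa using hj)
    | algebraMap x =>
      rw [Derivation.map_algebraMap]
      exact IntermediateField.zero_mem _
    | add x y hx hy ihx ihy =>
      rw [map_add]
      exact IntermediateField.add_mem _ ihx ihy
    | inv x hx ih =>
      rw [Derivation.leibniz_inv, smul_eq_mul]
      exact IntermediateField.mul_mem _ (IntermediateField.neg_mem _
        (pow_mem (IntermediateField.inv_mem _ hx) 2)) ih
    | mul x y hx hy ihx ihy =>
      rw [Derivation.leibniz, smul_eq_mul, smul_eq_mul]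
      exact IntermediateField.add_mem _ (IntermediateField.mul_mem _ hx ihy)
        (IntermediateField.mul_mem _ hy ihx)
  have hkill : ∀ c ∈ C, E l c = 0 := by
    intro c hc
    rw [hC] at hc
    induction hc using IntermediateField.adjoin_induction with
    | mem x hx =>
      obtain ⟨j, hj, rfl⟩ := hx
      rw [hu.2, if_neg]
      rintro rfl
      simp at hj
    | algebraMap x => rw [Derivation.map_algebraMap]
    | add x y hx hy ihx ihy => rw [map_add, ihx, ihy, add_zero]
    | inv x hx ih => rw [Derivation.leibniz_inv, ih, smul_zero]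
    | mul x y hx hy ihx ihy => rw [Derivation.leibniz, ihx, ihy, smul_zero, smul_zero, add_zero]
  have hlogE : ∀ i, i ≠ l → DerLog (rs Q) (E i) := by
    intro i hi
    refine log_zero htr (hpres _ fun j _ => ?_) C.zero_mem ?_ hQ
    · rw [hu.2]
      split_ifs
      · exact C.one_mem
      · exact C.zero_mem
    · rw [zero_mul]
      rcases hτ with h | h
      · rw [h, hu.2, if_neg hi]
      · rw [h, Derivation.leibniz_inv, hu.2, if_neg hi, smul_zero]
  have hlogl : DerLog (rs Q) (u l • E l) := by
    have hp : ∀ c ∈ C, (u l • E l) c ∈ C := hpres _ fun j hj => by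
      rw [Derivation.smul_apply, hu.2, if_neg (Ne.symm hj), smul_zero]
      exact C.zero_mem
    rcases hτ with h | h
    · refine log_zero htr hp C.one_mem ?_ hQ
      rw [h, Derivation.smul_apply, hu.2, if_pos rfl, smul_eq_mul, mul_one, one_mul]
    · refine log_zero htr hp (C.neg_mem C.one_mem) ?_ hQ
      rw [h, Derivation.smul_apply, Derivation.leibniz_inv, hu.2, if_pos rfl, smul_eq_mul,
        smul_eq_mul, mul_one]
      have := hne l
      field_simp
  obtain ⟨π, hπ0, hπ⟩ := (rs Q).surj
  refine ⟨rs Q, ?_, hQ, fun i hi => rs_triv Q (hmem i hi) (hne i),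
    fun i hi => reg_of_log (hlogE i hi), π, hπ0, hπ, ?_⟩
  · refine ⟨fun j : Fin n => u (l.succAbove j), fun F hF => ?_⟩
    have hind : AlgebraicIndependent k (fun j : Fin n => u (l.succAbove j)) :=
      hu.1.1.comp _ Fin.succAbove_right_injective
    have h0 : MvPolynomial.aeval (fun j : Fin n => u (l.succAbove j)) F ≠ 0 := fun h =>
      hF ((injective_iff_map_eq_zero _).1 hind F h)
    refine ⟨h0, rs_triv Q ?_ h0⟩
    have h2 : ∀ j : Fin n, u (l.succAbove j) ∈ C := fun j => hmem _ (Fin.succAbove_ne l j)
    have h3 := MvPolynomial.comp_aeval_apply (f := fun j : Fin n => (⟨_, h2 j⟩ : C)) C.val F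
    have h4 : MvPolynomial.aeval (fun j : Fin n => u (l.succAbove j)) F =
        ((MvPolynomial.aeval (fun j : Fin n => (⟨_, h2 j⟩ : C)) F : C) : K) := h3.symm
    rw [h4]
    exact SetLike.coe_mem _
  · intro f hf
    have h1 : Ge (rs Q) 1 ((u l • E l) f) := by
      refine kill (D := u l • E l) (fun c hc => ?_) (fun g hg => ?_) hf
      · rw [Derivation.smul_apply, hkill c hc, smul_zero]
      · by_cases hg0 : g = 0
        · rw [hg0, map_zero]
          exact Or.inl rfl
        · have h2 := (show Ge (rs Q) 0 ((u l • E l) g / g) from hlogl g).mul hg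
          rwa [div_mul_cancel₀ _ hg0, zero_add] at h2
    have h2 : Ge (rs Q) (-1) π⁻¹ := by
      right
      rw [(rs Q).ord_inv, hπ]
    have h3 := h2.mul h1
    have h4 : ((π⁻¹ * u l) • E l) f = π⁻¹ * (u l • E l) f := by
      rw [Derivation.smul_apply, Derivation.smul_apply, smul_eq_mul, smul_eq_mul, mul_assoc]
    rw [h4]
    exact h3

end Pool.Agent.X332.SP
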