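import Mathlib
import Pool.Agent.X332.SP.Place
import Pool.Agent.X332.SP.Eig
import Pool.Agent.X332.GT.Germ

/-!
Regular tensors which come from the special coordinates vanish.
-/

set_option autoImplicit false

namespace Pool.Agent.X332.SP

open FF IntermediateField Module Pool.Agent.W602.GT Pool.Agent.TH143.GT Pool.Agent.X332.GT

/-- Derivations kill elements which are algebraic over elements which are killed. -/
theorem der_alg {k K : Type} [Field k] [CharZero k] [Field K] [Algebra k K]
    {F : IntermediateField k K} {D : Derivation k K K} (hF : ∀ c ∈ F, D c = 0) {a : K}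
    (ha : IsAlgebraic F a) : D a = 0 := by
  have hc2 : CharZero F := charZero_of_injective_algebraMap (algebraMap k F).injective
  let D' : Derivation F K K :=
    { toFun := D
      map_add' := D.map_add
      map_smul' := fun c x => by
        have h1 : D (algebraMap F K c) = 0 := hF _ c.2
        rw [RingHom.id_apply, Algebra.smul_def c x, D.leibniz, h1, smul_zero, add_zero,
          Algebra.smul_def c (D x), smul_eq_mul]
      map_one_eq_zero' := D.map_one_eq_zero
      leibniz' := D.leibniz }
  have hsep : (minpoly F a).Separable := (minpoly.irreducible ha.isIntegral).separable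
  have h1 := D'.map_aeval (minpoly F a) a
  rw [minpoly.aeval, map_zero, smul_eq_mul] at h1
  exact (mul_eq_zero.1 h1.symm).resolve_left
    (hsep.aeval_derivative_ne_zero (minpoly.aeval F a))

section Poly

variable {K : Type} [Field K] {e w : ℕ}

/-- scaling the variables -/
noncomputable def sc (g : Fin w → K) (P : MvPolynomial (Fin e × Fin w) K) :
    MvPolynomial (Fin e × Fin w) K :=
  MvPolynomial.eval₂ MvPolynomial.C (fun p => MvPolynomial.C (g p.2) * MvPolynomial.X p) P

theorem sc_add (g : Fin w → K) (P Q : MvPolynomial (Fin e × Fin w) K) :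
    sc g (P + Q) = sc g P + sc g Q := MvPolynomial.eval₂_add _ _

theorem sc_sum (g : Fin w → K) {ι : Type} (s : Finset ι)
    (P : ι → MvPolynomial (Fin e × Fin w) K) : sc g (∑ i ∈ s, P i) = ∑ i ∈ s, sc g (P i) :=
  MvPolynomial.eval₂_sum _ _ _ _

theorem sc_C_mul (g : Fin w → K) (a : K) (P : MvPolynomial (Fin e × Fin w) K) :
    sc g (MvPolynomial.C a * P) = MvPolynomial.C a * sc g P := by
  unfold sc
  rw [MvPolynomial.eval₂_mul, MvPolynomial.eval₂_C]

theorem sc_coeff (g : Fin w → K) (P : MvPolynomial (Fin e × Fin w) K)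
    (d : Fin e × Fin w →₀ ℕ) : (sc g P).coeff d = (d.prod fun p n => g p.2 ^ n) * P.coeff d := by
  classical
  induction P using MvPolynomial.induction_on' with
  | monomial u a =>
    have h1 : sc g (MvPolynomial.monomial u a) =
        MvPolynomial.monomial u ((u.prod fun p n => g p.2 ^ n) * a) := by
      unfold sc
      rw [MvPolynomial.eval₂_monomial]
      simp only [mul_pow]
      rw [Finsupp.prod_mul, MvPolynomial.monomial_eq, map_mul, mul_comm (MvPolynomial.C _)
        (MvPolynomial.C a), mul_assoc]
      congr 2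
      simp only [Finsupp.prod, map_prod, map_pow]
    rw [h1, MvPolynomial.coeff_monomial, MvPolynomial.coeff_monomial]
    split_ifs with h
    · rw [h]
    · rw [mul_zero]
  | add p q hp hq =>
    rw [sc_add, MvPolynomial.coeff_add, MvPolynomial.coeff_add, hp, hq, mul_add]

end Poly

section

variable {k K : Type} [Field k] [Field K] [Algebra k K] {e w : ℕ}

theorem sc_tp (g : Fin w → K) (E : Fin w → Derivation k K K) (N : ℕ) (f : K) (y : Fin e → K) :
    sc g (tp E N f y) = tp (fun l => g l • E l) N f y := by
  unfold sc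
  rw [tp_eval]
  have hm : (Matrix.of fun (i j : Fin e) => ∑ l, (MvPolynomial.C (g l) *
      MvPolynomial.X (R := K) (i, l)) * MvPolynomial.C (E l (y j))) =
      Matrix.of fun i j => ∑ l, MvPolynomial.X (i, l) * MvPolynomial.C ((g l • E l) (y j)) := by
    ext1 i j
    rw [Matrix.of_apply, Matrix.of_apply]
    refine Finset.sum_congr rfl fun l _ => ?_
    rw [Derivation.smul_apply, smul_eq_mul, map_mul]
    ring
  exact congrArg (fun A => MvPolynomial.C f * Matrix.det A ^ N) hm

theorem eval_tp (E : Fin w → Derivation k K K) (N : ℕ) (f : K) (y : Fin e → K)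
    (c : Fin e × Fin w → k) : MvPolynomial.eval (fun p => algebraMap k K (c p)) (tp E N f y) =
      vl E N f y fun i l => c (i, l) := by
  have h1 := tp_eval E N f y (RingHom.id K) (fun p => algebraMap k K (c p))
  exact h1

/-- the valuation ring as a subspace -/
def OS (P : Place k K) : Submodule k K where
  carrier := {f | P.Reg f}
  add_mem' := P.reg_add
  zero_mem' := P.reg_zero
  smul_mem' := fun c x hx => by
    rw [Algebra.smul_def]
    exact P.reg_mul (P.reg_const c) hx

end

section

variable {K : Type} [Field K] [Algebra ℂ K] {s : K →ₐ[ℂ] K} {w e N : ℕ}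
  {u : Fin w → K} {L : Set (Fin w)} {E : Fin w → Derivation ℂ K K}

open Classical in
/-- the scaling factors of the special frame -/
noncomputable def fac (s : K →ₐ[ℂ] K) (u : Fin w → K) (L : Set (Fin w)) (l : Fin w) : K :=
  if l ∈ L then (if s (u l) = u l + 1 then 1 else u l) else 0

theorem kill_sf (hu : Dual u E) {l : Fin w} (hl : l ∉ L) : ∀ c ∈ sf u L, E l c = 0 := by
  intro c hc
  unfold sf at hc
  induction hc using IntermediateField.adjoin_induction with
  | mem x hx =>
    obtain ⟨j, hj, rfl⟩ := hx
    rw [hu.2, if_neg]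
    rintro rfl
    exact hl hj
  | algebraMap x => rw [Derivation.map_algebraMap]
  | add x y hx hy ihx ihy => rw [map_add, ihx, ihy, add_zero]
  | inv x hx ih => rw [Derivation.leibniz_inv, ih, smul_zero]
  | mul x y hx hy ihx ihy => rw [Derivation.leibniz, ihx, ihy, smul_zero, smul_zero, add_zero]

/-- the special frame commutes with `s` -/
theorem fac_comm (h : Adapted s u L) (hu : Dual u E) {z : K} (hz : IsAlgebraic (sf u L) z)
    (l : Fin w) : fac s u L l * E l (s z) = s (fac s u L l * E l z) := by
  classical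
  have h1 := chain' hu s (E l) z
  have hsum : ∀ j, j ≠ l → E l (s (u j)) * s (E j z) = 0 := by
    intro j hj
    by_cases hjL : j ∈ L
    · have h2 : E l (s (u j)) = 0 := by
        rcases h.each j hjL with ⟨μ, hμ⟩ | hμ
        · rw [hμ, Derivation.map_smul, hu.2, if_neg (Ne.symm hj), smul_zero]
        · rw [hμ, map_add, hu.2, if_neg (Ne.symm hj), Derivation.map_one_eq_zero, add_zero]
      rw [h2, zero_mul]
    · rw [der_alg (kill_sf hu hjL) hz, map_zero, mul_zero]
  rw [h1, Finset.sum_eq_single l (fun j _ hj => hsum j hj) fun h => absurd (Finset.mem_univ l) h]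
  unfold fac
  by_cases hl : l ∈ L
  · rw [if_pos hl]
    by_cases ha : s (u l) = u l + 1
    · rw [if_pos ha, ha, map_add, hu.2, if_pos rfl, Derivation.map_one_eq_zero]
      simp
    · rw [if_neg ha]
      obtain ⟨μ, hμ⟩ := (h.each l hl).resolve_right ha
      rw [hμ, Derivation.map_smul, hu.2, if_pos rfl, map_mul, hμ]
      simp only [Algebra.smul_def]
      ring
  · rw [if_neg hl, zero_mul, zero_mul, map_zero]

theorem sf_map (h : Adapted s u L) : ∀ c ∈ sf u L, s c ∈ sf u L := by
  intro c hc
  unfold sf at hc
  induction hc using IntermediateField.adjoin_induction with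
  | mem x hx =>
    obtain ⟨j, hj, rfl⟩ := hx
    rcases h.each j hj with ⟨μ, hμ⟩ | hμ
    · rw [hμ]
      exact (sf u L).smul_mem (mem_sf hj)
    · rw [hμ]
      exact (sf u L).add_mem (mem_sf hj) (sf u L).one_mem
  | algebraMap x =>
    rw [s.commutes]
    exact (sf u L).algebraMap_mem x
  | add x y hx hy ihx ihy =>
    rw [map_add]
    exact (sf u L).add_mem ihx ihy
  | inv x hx ih =>
    rw [map_inv₀]
    exact (sf u L).inv_mem ih
  | mul x y hx hy ihx ihy =>
    rw [map_mul]
    exact (sf u L).mul_mem ihx ihy

theorem alg_map (h : Adapted s u L) {z : K} (hz : IsAlgebraic (sf u L) z) :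
    IsAlgebraic (sf u L) (s z) := by
  let φ : sf u L →+* sf u L :=
    { toFun := fun c => ⟨s c, sf_map h c c.2⟩
      map_one' := Subtype.ext (map_one s)
      map_mul' := fun a b => Subtype.ext (map_mul s (a : K) (b : K))
      map_zero' := Subtype.ext (map_zero s)
      map_add' := fun a b => Subtype.ext (map_add s (a : K) (b : K)) }
  obtain ⟨p, hp, h0⟩ := hz
  refine ⟨p.map φ, (Polynomial.map_ne_zero_iff φ.injective).2 hp, ?_⟩
  rw [Polynomial.aeval_def, Polynomial.eval₂_map]
  have h1 := congrArg s h0
  rw [map_zero, Polynomial.aeval_def] at h1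
  rw [← h1]
  exact (Polynomial.hom_eval₂ p (algebraMap (sf u L) K) (s : K →+* K) z).symm

/-- the operator on the polynomials -/
noncomputable def mp (s : K →ₐ[ℂ] K) : Module.End ℂ (MvPolynomial (Fin e × Fin w) K) :=
  (MvPolynomial.mapAlgHom s).toLinearMap

theorem mp_apply (P : MvPolynomial (Fin e × Fin w) K) :
    mp s P = MvPolynomial.map (s : K →+* K) P := rfl

/-- the tensors of the orbit -/
theorem mp_tp (h : Adapted s u L) (hu : Dual u E) (N : ℕ) (f : K) {y : Fin e → K}
    (hy : ∀ b, IsAlgebraic (sf u L) (y b)) :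
    mp s (tp (fun l => fac s u L l • E l) N f y) =
      tp (fun l => fac s u L l • E l) N (s f) fun b => s (y b) := by
  rw [mp_apply]
  unfold tp
  rw [map_mul, map_pow, MvPolynomial.map_C, RingHom.map_det]
  have hm : (MvPolynomial.map (s : K →+* K)).mapMatrix (Matrix.of fun (i j : Fin e) =>
      ∑ l, MvPolynomial.X (R := K) (i, l) * MvPolynomial.C ((fac s u L l • E l) (y j))) =
      Matrix.of fun i j => ∑ l, MvPolynomial.X (i, l) *
        MvPolynomial.C ((fac s u L l • E l) (s (y j))) := by
    ext1 i j
    rw [RingHom.mapMatrix_apply, Matrix.map_apply, Matrix.of_apply, Matrix.of_apply, map_sum]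
    refine Finset.sum_congr rfl fun l _ => ?_
    rw [map_mul, MvPolynomial.map_X, MvPolynomial.map_C, Derivation.smul_apply,
      Derivation.smul_apply, smul_eq_mul, smul_eq_mul, fac_comm h hu (hy j) l]
    rfl
  exact congrArg (fun A => MvPolynomial.C (s f) * Matrix.det A ^ N) hm

theorem mp_pow_tp (h : Adapted s u L) (hu : Dual u E) (N : ℕ) (i : ℕ) : ∀ (f : K) {y : Fin e → K}
    (_ : ∀ b, IsAlgebraic (sf u L) (y b)),
    ((mp s) ^ i) (tp (fun l => fac s u L l • E l) N f y) =
      tp (fun l => fac s u L l • E l) N ((s ^ i) f) fun b => (s ^ i) (y b) := by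
  induction i with
  | zero => intro f y hy; rfl
  | succ i ih =>
    intro f y hy
    rw [pow_succ, Module.End.mul_apply, mp_tp h hu N f hy, ih (s f) fun b => alg_map h (hy b)]
    rfl

/-- an eigenvector in a cyclic space -/
theorem exists_eig {V : Type} [AddCommGroup V] [Module ℂ V] (T : Module.End ℂ V) {v : V}
    (hv : v ≠ 0) : ∀ (n : ℕ) (q : Polynomial ℂ), q.natDegree ≤ n → q ≠ 0 →
      (Polynomial.aeval T q) v = 0 → ∃ (q' : Polynomial ℂ) (μ : ℂ),
        (Polynomial.aeval T q') v ≠ 0 ∧
          T ((Polynomial.aeval T q') v) = μ • (Polynomial.aeval T q') v := by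
  intro n
  induction n with
  | zero =>
    intro q hq hq0 h
    exfalso
    rw [Polynomial.eq_C_of_natDegree_eq_zero (Nat.le_zero.1 hq), Polynomial.aeval_C] at h
    have h1 : q.coeff 0 • v = 0 := h
    rcases smul_eq_zero.1 h1 with h2 | h2
    · apply hq0
      rw [Polynomial.eq_C_of_natDegree_eq_zero (Nat.le_zero.1 hq), h2, map_zero]
    · exact hv h2
  | succ n ih =>
    intro q hq hq0 h
    by_cases hd : q.natDegree ≤ n
    · exact ih q hd hq0 h
    have hdeg : q.degree ≠ 0 := by
      intro h0
      have : q.natDegree = 0 := Polynomial.natDegree_eq_zero_iff_degree_le_zero.2 h0.le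
      omega
    obtain ⟨μ, hμ⟩ := IsAlgClosed.exists_root q hdeg
    obtain ⟨q1, hq1⟩ := Polynomial.dvd_iff_isRoot.2 hμ
    have hq10 : q1 ≠ 0 := by
      rintro rfl
      rw [mul_zero] at hq1
      exact hq0 hq1
    by_cases h0 : (Polynomial.aeval T q1) v = 0
    · refine ih q1 ?_ hq10 h0
      have h2 := congrArg Polynomial.natDegree hq1
      rw [Polynomial.natDegree_mul (Polynomial.X_sub_C_ne_zero μ) hq10,
        Polynomial.natDegree_X_sub_C] at h2
      omega
    · refine ⟨q1, μ, h0, ?_⟩
      rw [hq1, map_mul, map_sub, Polynomial.aeval_X, Polynomial.aeval_C] at h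
      have h1 : T ((Polynomial.aeval T q1) v) - μ • (Polynomial.aeval T q1) v = 0 := h
      exact sub_eq_zero.1 h1

end

end Pool.Agent.X332.SP
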