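import Mathlib
import Pool.Agent.X332.SP.Key

/-!
The main theorem on regular tensors which come from the special coordinates.
-/

set_option autoImplicit false

namespace Pool.Agent.X332.SP

open FF IntermediateField Module Pool.Agent.W602.GT Pool.Agent.TH143.GT Pool.Agent.X332.GT

variable {K : Type} [Field K] [Algebra ℂ K] {s : K →ₐ[ℂ] K} {n e N : ℕ}
  {u : Fin (n + 1) → K} {L : Set (Fin (n + 1))} {E : Fin (n + 1) → Derivation ℂ K K}

theorem fac_ne (hu : Dual u E) {l : Fin (n + 1)} (h : fac s u L l = 0) : l ∉ L := by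
  intro hl
  unfold fac at h
  rw [if_pos hl] at h
  split_ifs at h
  · exact one_ne_zero h
  · exact hu.1.1.ne_zero l h

theorem tp_ne (hu : Dual u E) {f : K} (hf : f ≠ 0) {y : Fin e → K}
    (hy : AlgebraicIndependent ℂ y) (hya : ∀ b, IsAlgebraic (sf u L) (y b)) :
    tp (fun l => fac s u L l • E l) N f y ≠ 0 := by
  classical
  intro h0
  obtain ⟨D, hD⟩ := exists_dual' y hy
  have h1 := tp_eval (fun l => fac s u L l • E l) N f y (RingHom.id K)
    (fun p => D p.1 (u p.2) / fac s u L p.2)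
  rw [h0, MvPolynomial.eval₂_zero] at h1
  have h2 : (Matrix.of fun i j' => ∑ l, (fun p : Fin e × Fin (n + 1) =>
      D p.1 (u p.2) / fac s u L p.2) (i, l) *
      (RingHom.id K) ((fac s u L l • E l) (y j')) : Matrix (Fin e) (Fin e) K) = 1 := by
    ext i j
    rw [Matrix.of_apply, Matrix.one_apply, ← hD i j]
    have h3 := congrArg (fun D : Derivation ℂ K K => D (y j)) (hu.expand (D i))
    simp only [der_sum, smul_eq_mul] at h3
    rw [h3]
    refine Finset.sum_congr rfl fun l _ => ?_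
    change D i (u l) / fac s u L l * (fac s u L l * E l (y j)) = _
    by_cases h4 : fac s u L l = 0
    · rw [der_alg (kill_sf hu (fac_ne hu h4)) (hya j)]
      simp
    · rw [← mul_assoc, div_mul_cancel₀ _ h4]
  rw [h2, Matrix.det_one, one_pow, mul_one] at h1
  exact hf h1.symm

theorem reg_scaled {Q : Place ℂ K} (hQ : Divisorial (n + 1) Q) {f : K} {y : Fin e → K}
    (h : PReg ℂ (n + 1) N f y) {g : Fin (n + 1) → K}
    (hg : ∀ l, DerReg Q (g l • (fac s u L l • E l))) (c : Fin e × Fin (n + 1) → ℂ) :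
    Q.Reg (MvPolynomial.eval (fun p => algebraMap ℂ K (c p))
      (sc g (tp (fun l => fac s u L l • E l) N f y))) := by
  rw [sc_tp, eval_tp]
  have h1 := h.val hQ (E := fun l => g l • (fac s u L l • E l)) (g := 1)
    (fun l => by rw [one_smul]; exact hg l) fun i l => c (i, l)
  rwa [one_pow, one_mul] at h1

/-- **The eigentensor.** -/
theorem exists_tensor [Algebra.EssFiniteType ℂ K] (hn : Algebra.trdeg ℂ K = (n + 1 : ℕ))
    (h : Adapted s u L) (hu : Dual u E) (hN : 0 < N) {f : K} (hf : f ≠ 0)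
    {y : Fin e → K} (hy : AlgebraicIndependent ℂ y) (hya : ∀ b, IsAlgebraic (sf u L) (y b))
    (hreg : PReg ℂ (n + 1) N f y) :
    ∃ (R T : MvPolynomial (Fin e × Fin (n + 1)) K) (μ : ℂ), T ≠ 0 ∧ T = sc (fac s u L) R ∧
      T.IsHomogeneous (e * N) ∧ mp s T = μ • T ∧
      ∀ (Q : Place ℂ K), Divisorial (n + 1) Q → ∀ g : Fin (n + 1) → K,
        (∀ l, DerReg Q (g l • (fac s u L l • E l))) → ∀ c : Fin e × Fin (n + 1) → ℂ,
          Q.Reg (MvPolynomial.eval (fun p => algebraMap ℂ K (c p)) (sc g T)) := by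
  classical
  have hregs : ∀ i : ℕ, PReg ℂ (n + 1) N ((s ^ i) f) fun b => (s ^ i) (y b) := fun i =>
    PReg.ext hN hn hn (s ^ i) hreg
  obtain ⟨W, hW, hmem⟩ := exists_fg hn hu e N
  obtain ⟨r, a, har, hrel⟩ := exists_dep hW (e * N)
    (fun i => tp E N ((s ^ i) f) fun b => (s ^ i) (y b)) (fun i => tp_homog _ _ _ _)
    (fun i c => by
      rw [eval_tp]
      exact hmem _ _ (hregs i) _)
  set T0 := tp (fun l => fac s u L l • E l) N f y with hT0
  have hT0ne : T0 ≠ 0 := tp_ne hu hf hy hya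
  have hpow : ∀ i, ((mp s) ^ i) T0 = tp (fun l => fac s u L l • E l) N ((s ^ i) f)
      fun b => (s ^ i) (y b) := fun i => mp_pow_tp h hu N i f hya
  set q : Polynomial ℂ := ∑ i ∈ Finset.range (r + 1), Polynomial.C (a i) * Polynomial.X ^ i
    with hq
  have hq0 : q ≠ 0 := by
    intro h0
    apply har
    have h1 := congrArg (fun p => Polynomial.coeff p r) h0
    simp only [hq, Polynomial.finsetSum_coeff, Polynomial.coeff_C_mul_X_pow,
      Polynomial.coeff_zero] at h1
    rw [Finset.sum_ite_eq (Finset.range (r + 1)) r a, if_pos (Finset.mem_range.2 (by omega))] at h1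
    exact h1
  have hqT : (Polynomial.aeval (mp s) q) T0 = 0 := by
    rw [hq, map_sum, LinearMap.sum_apply]
    have h1 := congrArg (sc (fac s u L)) hrel
    rw [sc_sum] at h1
    have h2 : sc (fac s u L) (0 : MvPolynomial (Fin e × Fin (n + 1)) K) = 0 :=
      MvPolynomial.eval₂_zero _ _
    rw [h2] at h1
    rw [← h1]
    refine Finset.sum_congr rfl fun i _ => ?_
    rw [sc_C_mul, sc_tp, ← hpow i, map_mul, Polynomial.aeval_C, map_pow, Polynomial.aeval_X,
      Module.End.mul_apply, Module.algebraMap_end_apply, ← algebraMap_smul K (a i),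
      MvPolynomial.smul_eq_C_mul]
  obtain ⟨q', μ, hne, heig⟩ := exists_eig (mp s) hT0ne _ q le_rfl hq0 hqT
  have hsum : (Polynomial.aeval (mp s) q') T0 = ∑ i ∈ Finset.range (q'.natDegree + 1),
      MvPolynomial.C (algebraMap ℂ K (q'.coeff i)) *
        tp (fun l => fac s u L l • E l) N ((s ^ i) f) fun b => (s ^ i) (y b) := by
    rw [Polynomial.aeval_eq_sum_range, LinearMap.sum_apply]
    refine Finset.sum_congr rfl fun i _ => ?_
    rw [LinearMap.smul_apply, hpow i, ← algebraMap_smul K (q'.coeff i),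
      MvPolynomial.smul_eq_C_mul]
  refine ⟨∑ i ∈ Finset.range (q'.natDegree + 1), MvPolynomial.C (algebraMap ℂ K (q'.coeff i)) *
    tp E N ((s ^ i) f) fun b => (s ^ i) (y b), (Polynomial.aeval (mp s) q') T0, μ, hne, ?_, ?_,
    heig, fun Q hQ g hg c => ?_⟩
  · rw [hsum, sc_sum]
    refine Finset.sum_congr rfl fun i _ => ?_
    rw [sc_C_mul, sc_tp]
  · rw [hsum]
    refine MvPolynomial.IsHomogeneous.sum _ _ _ fun i _ => ?_
    have h1 := (MvPolynomial.isHomogeneous_C (Fin e × Fin (n + 1))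
      (algebraMap ℂ K (q'.coeff i))).mul (tp_homog (fun l => fac s u L l • E l) N ((s ^ i) f)
        fun b => (s ^ i) (y b))
    rwa [zero_add] at h1
  · rw [hsum, sc_sum, map_sum]
    change _ ∈ Q.O
    refine sum_mem fun i _ => ?_
    rw [sc_C_mul, map_mul, MvPolynomial.eval_C]
    exact mul_mem (Q.reg_const _) (reg_scaled hQ (hregs i) hg c)

/-- the order of the coefficients -/
theorem ord_coeff {T : MvPolynomial (Fin e × Fin (n + 1)) K} {Q : Place ℂ K} {l0 : Fin (n + 1)}
    {ρ : K} (hρ : ρ ≠ 0) (hρ0 : Q.ord ρ < 0)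
    (hreg : ∀ c : Fin e × Fin (n + 1) → ℂ, Q.Reg (MvPolynomial.eval
      (fun p => algebraMap ℂ K (c p)) (sc (fun l => if l = l0 then ρ else 1) T)))
    {d : Fin e × Fin (n + 1) →₀ ℕ} {i0 : Fin e} (hd : d (i0, l0) ≠ 0) (ha : T.coeff d ≠ 0) :
    0 < Q.ord (T.coeff d) := by
  classical
  have h1 := coeff_mem (OS Q) _ hreg d
  rw [sc_coeff] at h1
  set D := ∑ p ∈ d.support.filter (fun p => p.2 = l0), d p with hD
  have h2 : (d.prod fun p n => (if p.2 = l0 then ρ else 1) ^ n) = ρ ^ D := by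
    rw [Finsupp.prod, hD, ← Finset.prod_pow_eq_pow_sum, Finset.prod_filter]
    refine Finset.prod_congr rfl fun p _ => ?_
    split_ifs
    · rfl
    · exact one_pow _
  rw [h2] at h1
  have h3 : 1 ≤ D := by
    have h4 : d (i0, l0) ≤ D := Finset.single_le_sum (f := fun p => d p) (fun _ _ => Nat.zero_le _)
      (Finset.mem_filter.2 ⟨Finsupp.mem_support_iff.2 hd, rfl⟩)
    omega
  have h5 : 0 ≤ Q.ord (ρ ^ D * T.coeff d) :=
    (Place.reg_iff Q (mul_ne_zero (pow_ne_zero _ hρ) ha)).1 h1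
  rw [Q.ord_mul (pow_ne_zero _ hρ) ha, Q.ord_pow] at h5
  have h6 : (D : ℤ) * Q.ord ρ < 0 := by
    have : (1 : ℤ) ≤ D := by exact_mod_cast h3
    nlinarith
  omega

/-- the order of an eigenvector -/
theorem ord_eig {Q : Place ℂ K} {l0 : Fin (n + 1)} (hu0 : ∀ l, u l ≠ 0)
    (hQ : ∀ i, i ≠ l0 → Q.ord (u i) = 0) {a : K} {q : ℕ} {m : Fin (n + 1) → ℤ} {c : ℂ}
    (ha : a ≠ 0) (h : a ^ q = c • ∏ l, u l ^ m l) :
    (q : ℤ) * Q.ord a = m l0 * Q.ord (u l0) := by
  classical
  have hc : c ≠ 0 := by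
    rintro rfl
    rw [zero_smul] at h
    exact pow_ne_zero _ ha h
  have h1 := congrArg Q.ord h
  have h0 : ∏ l, u l ^ m l ≠ 0 := Finset.prod_ne_zero_iff.2 fun l _ => zpow_ne_zero _ (hu0 l)
  rw [Q.ord_pow, Algebra.smul_def, Q.ord_mul (by rwa [Ne, map_eq_zero]) h0, Q.ord_const hc,
    zero_add] at h1
  rw [h1]
  have h2 : ∀ S : Finset (Fin (n + 1)), Q.ord (∏ l ∈ S, u l ^ m l) =
      ∑ l ∈ S, m l * Q.ord (u l) := by
    intro S
    induction S using Finset.induction_on with
    | empty => rw [Finset.prod_empty, Finset.sum_empty, Q.ord_one]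
    | insert x S hx ih =>
      rw [Finset.prod_insert hx, Finset.sum_insert hx, Q.ord_mul (zpow_ne_zero _ (hu0 x))
        (Finset.prod_ne_zero_iff.2 fun l _ => zpow_ne_zero _ (hu0 l)), ih, Q.ord_zpow]
  rw [h2, Finset.sum_eq_single l0]
  · intro i _ hi
    rw [hQ i hi, mul_zero]
  · intro hi
    exact absurd (Finset.mem_univ _) hi

/-- the frame is regular in the other directions -/
theorem fac_reg {Q : Place ℂ K} {l0 l : Fin (n + 1)} (hl : l ≠ l0)
    (hQ : ∀ i, i ≠ l0 → Q.ord (u i) = 0) (hE : ∀ i, i ≠ l0 → DerReg Q (E i)) :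
    DerReg Q (fac s u L l • E l) := by
  intro f hf
  rw [Derivation.smul_apply, smul_eq_mul]
  refine Q.reg_mul ?_ (hE l hl f hf)
  unfold fac
  split_ifs
  · exact Q.reg_one
  · exact Or.inr (hQ l hl).ge
  · exact Q.reg_zero

/-- **Tensors which come from the special coordinates are not regular.** -/
theorem no_reg [Algebra.EssFiniteType ℂ K] (hn : Algebra.trdeg ℂ K = (n + 1 : ℕ))
    (h : Adapted s u L) (he : 0 < e) (hN : 0 < N) {f : K} (hf : f ≠ 0)
    {y : Fin e → K} (hy : AlgebraicIndependent ℂ y) (hya : ∀ b, IsAlgebraic (sf u L) (y b)) :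
    ¬ PReg ℂ (n + 1) N f y := by
  classical
  intro hreg
  choose E hE using fun i => exists_der u h.bas (fun j => if i = j then (1 : K) else 0)
  have hu : Dual u E := ⟨h.bas, hE⟩
  have hu0 : ∀ l, u l ≠ 0 := fun l => h.bas.1.ne_zero l
  obtain ⟨R, T, μ, hT0, hTR, hhom, heig, hTreg⟩ := exists_tensor hn h hu hN hf hy hya hreg
  obtain ⟨d, hd⟩ := MvPolynomial.support_nonempty.2 hT0
  have ha : T.coeff d ≠ 0 := MvPolynomial.mem_support_iff.1 hd
  have hdeg := hhom ha
  obtain ⟨⟨i0, l0⟩, hp⟩ : ∃ p, d p ≠ 0 := by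
    by_contra hcon
    push Not at hcon
    have h1 : d = 0 := Finsupp.ext hcon
    rw [h1, map_zero] at hdeg
    exact (Nat.mul_pos he hN).ne hdeg
  have hfac : fac s u L l0 ≠ 0 := by
    intro h0
    apply ha
    rw [hTR, sc_coeff]
    have h1 : (d.prod fun p n => fac s u L p.2 ^ n) = 0 := by
      rw [Finsupp.prod]
      refine Finset.prod_eq_zero (Finsupp.mem_support_iff.2 hp) ?_
      rw [h0]
      exact zero_pow hp
    rw [h1, zero_mul]
  have hl0 : l0 ∈ L := by
    by_contra hl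
    apply hfac
    unfold fac
    rw [if_neg hl]
  set a := T.coeff d with ha'
  have hsa : s a = μ • a := by
    have h1 := congrArg (MvPolynomial.coeff d) heig
    rw [mp_apply, MvPolynomial.coeff_map, MvPolynomial.coeff_smul] at h1
    exact h1
  obtain ⟨q, hq, m, c, hm, haq⟩ := h.eig a ha ⟨μ, hsa⟩
  -- the pole of the coordinate
  obtain ⟨Q, hQd, hQ0, hQi, hQE, π, hπ0, hπ, hQπ⟩ := exists_coord hu l0 (τ := (u l0)⁻¹)
    (Or.inr rfl)
  rw [Q.ord_inv] at hQ0
  have h1 := ord_eig (Q := Q) (l0 := l0) hu0 hQi ha haq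
  by_cases hadd : s (u l0) = u l0 + 1
  · have hm0 : m l0 = 0 := by
      by_contra h2
      exact (hm l0 h2).2 hadd
    have hρ : Q.ord (π⁻¹ * u l0) < 0 := by
      rw [Q.ord_mul (inv_ne_zero hπ0) (hu0 l0), Q.ord_inv, hπ]
      omega
    have h2 := ord_coeff (mul_ne_zero (inv_ne_zero hπ0) (hu0 l0)) hρ (fun c => hTreg Q hQd
      (fun l => if l = l0 then π⁻¹ * u l0 else 1) (fun l => by
        by_cases hl : l = l0
        · subst hl
          have h3 : fac s u L l = 1 := by
            unfold fac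
            rw [if_pos hl0, if_pos hadd]
          rw [if_pos rfl, h3, one_smul]
          exact hQπ
        · rw [if_neg hl, one_smul]
          exact fac_reg hl hQi hQE) c) hp ha
    rw [hm0, zero_mul] at h1
    have h3 : (0 : ℤ) < q * Q.ord a := mul_pos (by exact_mod_cast hq) h2
    rw [h1] at h3
    exact lt_irrefl _ h3
  · have hfu : fac s u L l0 = u l0 := by
      unfold fac
      rw [if_pos hl0, if_neg hadd]
    have key : ∀ (Q : Place ℂ K), Divisorial (n + 1) Q → (∀ i, i ≠ l0 → Q.ord (u i) = 0) →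
        (∀ i, i ≠ l0 → DerReg Q (E i)) → ∀ π : K, π ≠ 0 → Q.ord π = 1 →
        DerReg Q ((π⁻¹ * u l0) • E l0) → 0 < m l0 * Q.ord (u l0) := by
      intro Q hQd hQi hQE π hπ0 hπ hQπ
      have hρ : Q.ord π⁻¹ < 0 := by
        rw [Q.ord_inv, hπ]
        omega
      have h2 := ord_coeff (inv_ne_zero hπ0) hρ (fun c => hTreg Q hQd
        (fun l => if l = l0 then π⁻¹ else 1) (fun l => by
          by_cases hl : l = l0
          · subst hl
            rw [if_pos rfl, hfu, smul_smul]
            exact hQπ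
          · rw [if_neg hl, one_smul]
            exact fac_reg hl hQi hQE) c) hp ha
      rw [← ord_eig (Q := Q) (l0 := l0) hu0 hQi ha haq]
      exact mul_pos (by exact_mod_cast hq) h2
    have h2 := key Q hQd hQi hQE π hπ0 hπ hQπ
    obtain ⟨Q', hQd', hQ0', hQi', hQE', π', hπ0', hπ', hQπ'⟩ := exists_coord hu l0 (τ := u l0)
      (Or.inl rfl)
    have h3 := key Q' hQd' hQi' hQE' π' hπ0' hπ' hQπ'
    have h4 : 0 < m l0 := by
      by_contra h5
      push Not at h5
      nlinarith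
    nlinarith

end Pool.Agent.X332.SP
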