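import Mathlib

/-!
Linear algebra: semilinear maps and finite-dimensional invariant spaces.
-/

set_option autoImplicit false

namespace Pool.Agent.X332.SP

open Module

/-- the values of a multilinear map span a finite-dimensional space -/
theorem multi_fg {ι V K : Type} [Finite ι] [AddCommGroup V] [Module ℂ V] [Module.Finite ℂ V]
    [AddCommGroup K] [Module ℂ K] (Φ : MultilinearMap ℂ (fun _ : ι => V) K) :
    (Submodule.span ℂ (Set.range Φ)).FG := by
  classical
  have := Fintype.ofFinite ι
  let c := Module.finBasis ℂ V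
  have h1 : Submodule.span ℂ (Set.range Φ) ≤
      Submodule.span ℂ (Set.range fun r : ι → Fin (finrank ℂ V) => Φ fun i => c (r i)) := by
    rw [Submodule.span_le]
    rintro _ ⟨w, rfl⟩
    have h2 : w = fun i => ∑ a, c.repr (w i) a • c a := by
      funext i
      exact (c.sum_repr (w i)).symm
    rw [h2, MultilinearMap.map_sum]
    refine Submodule.sum_mem _ fun r _ => ?_
    rw [MultilinearMap.map_smul_univ]
    exact Submodule.smul_mem _ _ (Submodule.subset_span ⟨r, rfl⟩)
  have h2 : (Submodule.span ℂ (Set.range fun r : ι → Fin (finrank ℂ V) =>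
      Φ fun i => c (r i))).FG := Submodule.fg_span (Set.finite_range _)
  have h3 : Module.Finite ℂ (Submodule.span ℂ (Set.range fun r : ι → Fin (finrank ℂ V) =>
      Φ fun i => c (r i))) := Module.Finite.iff_fg.2 h2
  exact Submodule.FG.of_le h2 h1

section

variable {K M : Type} [Field K] [Algebra ℂ K] [AddCommGroup M] [Module K M] [Module ℂ M]
  [IsScalarTower ℂ K M]

/-- **The multipliers.** -/
theorem exists_small (s : K →ₐ[ℂ] K) (S : M →+ M) (hS : ∀ (a : K) (v : M), S (a • v) = s a • S v)
    (hinj : Function.Injective S) {V : Submodule ℂ M} (hV : V.FG) (hst : ∀ v ∈ V, S v ∈ V)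
    {x : M} (hx : x ∈ V) (hx0 : x ≠ 0) :
    ∃ F : Submodule ℂ K, F.FG ∧ (∀ a ∈ F, s a ∈ F) ∧ ∃ b ∈ F, b ≠ 0 ∧
      ∀ z : K, z • x ∈ V → z * b ∈ F := by
  classical
  have hVf : Module.Finite ℂ V := Module.Finite.iff_fg.2 hV
  obtain ⟨B, hBV, hxB, hVB, hli⟩ := exists_linearIndepOn_extension (K := K) (v := (id : M → M))
    (s := {x}) (t := (V : Set M)) (LinearIndepOn.singleton (by exact hx0))
    (by rintro _ rfl; exact hx)
  rw [Set.image_id, Set.image_id] at hVB
  have hxB' : x ∈ B := hxB rfl
  -- the span
  have hli' : LinearIndependent K (fun i : B => (i : M)) := hli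
  set U : Submodule K M := Submodule.span K (Set.range fun i : B => (i : M)) with hU
  have hrange : Set.range (fun i : B => (i : M)) = B := Subtype.range_coe
  have hVU : ∀ v ∈ V, v ∈ U := by
    intro v hv
    rw [hU, hrange]
    exact hVB hv
  let bas : Basis B K U := Basis.span hli'
  have hbas : ∀ i : B, ((bas i : U) : M) = i := fun i => by
    simp only [bas]
    rw [Basis.span_apply]
  have hUfin : Module.Finite K U := by
    obtain ⟨T, hT⟩ := hV
    have h1 : U = Submodule.span K (T : Set M) := by
      apply le_antisymm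
      · rw [hU, hrange, Submodule.span_le]
        intro i hi
        have h2 : i ∈ Submodule.span ℂ (T : Set M) := by
          rw [hT]
          exact hBV hi
        exact Submodule.span_le_restrictScalars ℂ K (T : Set M) h2
      · rw [Submodule.span_le]
        intro t ht
        refine hVU t ?_
        rw [← hT]
        exact Submodule.subset_span ht
    rw [h1]
    exact Module.Finite.iff_fg.2 (Submodule.fg_span T.finite_toSet)
  have hBfin : Finite B := Module.Finite.finite_basis bas
  have := Fintype.ofFinite B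
  -- the semilinear map on the span
  have hSU : ∀ v ∈ U, S v ∈ U := by
    intro v hv
    rw [hU] at hv
    induction hv using Submodule.span_induction with
    | mem y hy =>
      obtain ⟨i, rfl⟩ := hy
      exact hVU _ (hst _ (hBV i.2))
    | zero =>
      rw [map_zero]
      exact U.zero_mem
    | add y z _ _ hy hz =>
      rw [map_add]
      exact U.add_mem hy hz
    | smul a y _ hy =>
      rw [hS]
      exact U.smul_mem _ hy
  let SU : U → U := fun v => ⟨S v, hSU v v.2⟩
  have hSUsum : ∀ w : U, SU w = ∑ i, s (bas.repr w i) • SU (bas i) := by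
    intro w
    apply Subtype.ext
    rw [AddSubmonoidClass.coe_finsetSum]
    have h1 : (w : M) = ∑ i, bas.repr w i • ((bas i : U) : M) := by
      have h2 := congrArg Subtype.val (bas.sum_repr w)
      rw [AddSubmonoidClass.coe_finsetSum] at h2
      exact h2.symm
    change S (w : M) = _
    conv_lhs => rw [h1]
    rw [map_sum]
    refine Finset.sum_congr rfl fun i _ => ?_
    rw [hS]
    rfl
  -- surjectivity on `V`
  have hSc : ∀ (c : ℂ) (v : M), S (c • v) = c • S v := by
    intro c v
    rw [← algebraMap_smul K c v, hS, s.commutes, algebraMap_smul]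
  let SV : V →ₗ[ℂ] V :=
    { toFun := fun v => ⟨S v, hst v v.2⟩
      map_add' := fun v w => Subtype.ext (map_add S _ _)
      map_smul' := fun c v => Subtype.ext (hSc c v) }
  have hSVinj : Function.Injective SV := fun v w h => Subtype.ext (hinj (congrArg Subtype.val h))
  have hSVsurj : Function.Surjective SV := LinearMap.injective_iff_surjective.1 hSVinj
  -- the determinant of the images of the basis
  have hspan : ⊤ ≤ Submodule.span K (Set.range fun i : B => SU (bas i)) := by
    have h1 : ∀ v ∈ V, ∀ hv : v ∈ U, (⟨v, hv⟩ : U) ∈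
        Submodule.span K (Set.range fun i : B => SU (bas i)) := by
      intro v hv hvU
      obtain ⟨v', hv'⟩ := hSVsurj ⟨v, hv⟩
      have h2 : (⟨v, hvU⟩ : U) = SU ⟨v', hVU _ v'.2⟩ :=
        Subtype.ext (congrArg Subtype.val hv').symm
      rw [h2, hSUsum]
      exact Submodule.sum_mem _ fun i _ => Submodule.smul_mem _ _ (Submodule.subset_span ⟨i, rfl⟩)
    rw [← bas.span_eq, Submodule.span_le]
    rintro _ ⟨i, rfl⟩
    have h2 : ((bas i : U) : M) ∈ V := by
      rw [hbas]
      exact hBV i.2
    exact h1 _ h2 (bas i).2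
  have hli2 : LinearIndependent K (fun i : B => SU (bas i)) :=
    linearIndependent_of_top_le_span_of_card_eq_finrank hspan (Module.finrank_eq_card_basis bas).symm
  set c0 : K := bas.det (fun i => SU (bas i)) with hc0
  have hc00 : c0 ≠ 0 := by
    have h1 := bas.is_basis_iff_det.1 ⟨hli2, eq_top_iff.2 hspan⟩
    exact h1.ne_zero
  have hkey : ∀ w : B → U, bas.det (fun i => SU (w i)) = c0 * s (bas.det w) := by
    intro w
    rw [hc0, Basis.det_apply, Basis.det_apply, Basis.det_apply]
    have h1 : bas.toMatrix (fun i => SU (w i)) =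
        bas.toMatrix (fun i => SU (bas i)) * (s : K →+* K).mapMatrix (bas.toMatrix w) := by
      ext i j
      rw [Matrix.mul_apply, Basis.toMatrix_apply, hSUsum (w j), map_sum, Finsupp.finsetSum_apply]
      refine Finset.sum_congr rfl fun l _ => ?_
      rw [map_smul, Finsupp.smul_apply, smul_eq_mul, mul_comm]
      rfl
    rw [h1, Matrix.det_mul, ← RingHom.map_det]
    rfl
  -- the finite-dimensional space
  let inc : V →ₗ[ℂ] U :=
    { toFun := fun v => ⟨v, hVU _ v.2⟩
      map_add' := fun _ _ => rfl
      map_smul' := fun _ _ => rfl }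
  let Φ : MultilinearMap ℂ (fun _ : B => V) K :=
    (bas.det.toMultilinearMap.restrictScalars ℂ).compLinearMap fun _ => inc
  have hΦ : ∀ w : B → V, Φ w = bas.det fun i => inc (w i) := fun w => rfl
  set F0 : Submodule ℂ K := Submodule.span ℂ (Set.range Φ) with hF0
  have hF0fg : F0.FG := multi_fg Φ
  have hF0f : Module.Finite ℂ F0 := Module.Finite.iff_fg.2 hF0fg
  have hT : ∀ a ∈ F0, c0 * s a ∈ F0 := by
    intro a ha
    rw [hF0] at ha ⊢
    induction ha using Submodule.span_induction with
    | mem y hy =>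
      obtain ⟨w, rfl⟩ := hy
      refine Submodule.subset_span ⟨fun i => SV (w i), ?_⟩
      rw [hΦ, hΦ, ← hkey]
      rfl
    | zero =>
      rw [map_zero, mul_zero]
      exact Submodule.zero_mem _
    | add y z _ _ hy hz =>
      rw [map_add, mul_add]
      exact Submodule.add_mem _ hy hz
    | smul c y _ hy =>
      rw [map_smul, mul_smul_comm]
      exact Submodule.smul_mem _ _ hy
  let T : F0 →ₗ[ℂ] F0 :=
    { toFun := fun a => ⟨c0 * s a, hT a a.2⟩
      map_add' := fun a b => Subtype.ext (by
        change c0 * s ((a : K) + b) = c0 * s a + c0 * s b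
        rw [map_add, mul_add])
      map_smul' := fun c a => Subtype.ext (by
        change c0 * s (c • (a : K)) = c • (c0 * s a)
        rw [map_smul, mul_smul_comm]) }
  let incl : B → V := fun i => ⟨i, hBV i.2⟩
  have hincl : ∀ i, inc (incl i) = bas i := fun i => Subtype.ext (hbas i).symm
  have hz : ∀ z : K, z • x ∈ V → z ∈ F0 := by
    intro z hz
    refine Submodule.subset_span ⟨Function.update incl ⟨x, hxB'⟩ ⟨z • x, hz⟩, ?_⟩
    rw [hΦ]
    have h1 : (fun i => inc (Function.update incl ⟨x, hxB'⟩ ⟨z • x, hz⟩ i)) =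
        Function.update (fun i => bas i) ⟨x, hxB'⟩ (z • bas ⟨x, hxB'⟩) := by
      funext i
      by_cases hi : i = ⟨x, hxB'⟩
      · subst hi
        rw [Function.update_self, Function.update_self]
        apply Subtype.ext
        change z • x = z • ((bas ⟨x, hxB'⟩ : U) : M)
        rw [hbas]
      · rw [Function.update_of_ne hi, Function.update_of_ne hi, hincl]
    rw [h1, AlternatingMap.map_update_smul, Function.update_eq_self, Basis.det_self, smul_eq_mul,
      mul_one]
  have h1F : (1 : K) ∈ F0 := hz 1 (by rwa [one_smul])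
  have hnt : Nontrivial F0 := ⟨⟨⟨1, h1F⟩, 0, fun h => one_ne_zero (congrArg Subtype.val h)⟩⟩
  obtain ⟨μ, hμ⟩ := Module.End.exists_eigenvalue T
  obtain ⟨b0', hb0'⟩ := hμ.exists_hasEigenvector
  set b0 : K := ((b0' : F0) : K) with hb0
  have hb00 : b0 ≠ 0 := fun h => hb0'.2 (Subtype.ext h)
  have hb : c0 * s b0 = algebraMap ℂ K μ * b0 := by
    have h1 := congrArg Subtype.val hb0'.apply_eq_smul
    have h2 : c0 * s b0 = μ • b0 := h1
    rw [h2, Algebra.smul_def]
  have hsb0 : s b0 ≠ 0 := by
    rw [Ne, map_eq_zero]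
    exact hb00
  have hμ0 : algebraMap ℂ K μ ≠ 0 := by
    intro h
    rw [h, zero_mul] at hb
    exact (mul_ne_zero hc00 hsb0) hb
  refine ⟨F0.map (LinearMap.mulLeft ℂ b0⁻¹), hF0fg.map _, ?_, b0⁻¹, ⟨1, h1F, by
    rw [LinearMap.mulLeft_apply, mul_one]⟩, inv_ne_zero hb00, fun z hzx => ⟨z, hz z hzx, by
    rw [LinearMap.mulLeft_apply, mul_comm]⟩⟩
  rintro _ ⟨a, ha, rfl⟩
  refine ⟨μ⁻¹ • (c0 * s a), Submodule.smul_mem _ _ (hT a ha), ?_⟩
  rw [LinearMap.mulLeft_apply, LinearMap.mulLeft_apply, map_mul, map_inv₀, Algebra.smul_def,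
    map_inv₀]
  have h1 : s b0 = algebraMap ℂ K μ * b0 / c0 := by
    rw [eq_div_iff hc00, mul_comm, hb]
  rw [h1]
  field_simp

end

end Pool.Agent.X332.SP
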