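import Mathlib
import Pool.Agent.X332.SP.Lin
import Pool.Agent.X332.SP.Key2

/-!
Fields of germs which are stable under the shift are special: there are no orbifold images of
general type.
-/

set_option autoImplicit false

namespace Pool.Agent.X332.SP

open Filter FF IntermediateField Module Pool.Agent.W602.GT Pool.Agent.TH143.GT
  Pool.Agent.TH143.HE Pool.Agent.TH143.TW Pool.Agent.TH143.DE Pool.Agent.X332.GT

/-- cyclic spaces of elements which are killed by a polynomial -/
theorem cyc_fg {V : Type} [AddCommGroup V] [Module ℂ V] (T : Module.End ℂ V) (v : V)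
    {q : Polynomial ℂ} (hq : q ≠ 0) (h : (Polynomial.aeval T q) v = 0) :
    (Submodule.span ℂ (Set.range fun k : ℕ => (T ^ k) v)).FG := by
  classical
  set q' := Polynomial.C (q.leadingCoeff⁻¹) * q with hq'
  have hmon : q'.Monic := by
    have h1 := Polynomial.monic_mul_leadingCoeff_inv hq
    rwa [mul_comm] at h1
  have hq'v : (Polynomial.aeval T q') v = 0 := by
    rw [hq', map_mul, Module.End.mul_apply, h, map_zero]
  have h1 : Submodule.span ℂ (Set.range fun k : ℕ => (T ^ k) v) ≤
      Submodule.span ℂ ((fun k : ℕ => (T ^ k) v) '' (Finset.range (q'.natDegree + 1) : Set ℕ)) := by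
    rw [Submodule.span_le]
    rintro _ ⟨k, rfl⟩
    have h2 := Polynomial.modByMonic_add_div (Polynomial.X ^ k) q'
    have h3 : (T ^ k) v = (Polynomial.aeval T (Polynomial.X ^ k %ₘ q')) v := by
      have h4 := congrArg (fun p => (Polynomial.aeval T p) v) h2
      simp only [map_add, map_pow, Polynomial.aeval_X, LinearMap.add_apply] at h4
      rw [mul_comm, map_mul, Module.End.mul_apply, hq'v, map_zero, add_zero] at h4
      exact h4.symm
    change (T ^ k) v ∈ _
    rw [h3, Polynomial.aeval_eq_sum_range' (n := q'.natDegree + 1) (by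
      have := Polynomial.natDegree_modByMonic_le (Polynomial.X ^ k) hmon
      omega), LinearMap.sum_apply]
    refine Submodule.sum_mem _ fun i hi => ?_
    rw [LinearMap.smul_apply]
    exact Submodule.smul_mem _ _ (Submodule.subset_span ⟨i, by simpa using hi, rfl⟩)
  refine Submodule.FG.of_le ?_ h1
  exact Submodule.fg_span (Set.Finite.image _ (Finset.finite_toSet _))

/-- the shift as a linear map -/
noncomputable def shL : Module.End ℂ GG where
  toFun := shG
  map_add' := map_add shG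
  map_smul' c x := by
    have h1 : c • x = algebraMap ℂ GG c * x := Algebra.smul_def c x
    have h2 : c • shG x = algebraMap ℂ GG c * shG x := Algebra.smul_def c (shG x)
    have h3 : shG (algebraMap ℂ GG c) = algebraMap ℂ GG c := by
      rw [← gg.commutes c, shG_gg]
      rfl
    rw [RingHom.id_apply, h1, h2, map_mul, h3]

theorem shG_inj : Function.Injective shG := by
  rw [injective_iff_map_eq_zero]
  intro x hx
  obtain ⟨f, rfl⟩ := gg_surj x
  rw [shG_gg] at hx
  have h1 := Pool.Agent.TH143.GE.gg_zero.1 hx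
  apply Pool.Agent.TH143.GE.gg_zero.2
  obtain ⟨m0, hm0⟩ := eventually_atTop.1 h1
  filter_upwards [eventually_ge_atTop (m0 + 1)] with m hm
  have h2 := hm0 (m - 1) (by omega)
  have h3 : m - 1 + 1 = m := by omega
  rwa [h3] at h2

theorem shG_const {x : GG} (hx : shG x = x) : ∃ c : ℂ, algebraMap ℂ GG c = x := by
  obtain ⟨f, rfl⟩ := gg_surj x
  rw [shG_gg, gg_eq] at hx
  obtain ⟨m0, hm0⟩ := eventually_atTop.1 hx
  refine ⟨f m0, ?_⟩
  rw [← gg.commutes (f m0), gg_eq]
  filter_upwards [eventually_ge_atTop m0] with m hm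
  have h1 : ∀ k, f (m0 + k) = f m0 := by
    intro k
    induction k with
    | zero => rfl
    | succ k ih =>
      rw [← ih, ← hm0 (m0 + k) (by omega)]
      rfl
  have h2 := h1 (m - m0)
  have h3 : m0 + (m - m0) = m := by omega
  rw [h3] at h2
  rw [h2]
  rfl

section

variable {K : Type} [Field K] [Algebra ℂ K] {j : K →ₐ[ℂ] GG} {s : K →ₐ[ℂ] K} {w e : ℕ}
  {u : Fin w → K} {E : Fin w → Derivation ℂ K K}

/-- the values of regular tensors satisfy linear recurrences -/
theorem tv_dep [Algebra.EssFiniteType ℂ K] {n : ℕ} {u : Fin (n + 1) → K}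
    {E : Fin (n + 1) → Derivation ℂ K K} (hn : Algebra.trdeg ℂ K = (n + 1 : ℕ))
    (hs : ∀ z, j (s z) = shG (j z)) (hu : Dual u E) {γ : Fin e → Fin (n + 1) → GG}
    (hγ : ∀ a l, shG (γ a l) = ∑ l', γ a l' * j (E l' (s (u l)))) {N : ℕ} {f : K}
    {y : Fin e → K} (hreg : ∀ i : ℕ, PReg ℂ (n + 1) N ((s ^ i) f) fun b => (s ^ i) (y b)) :
    ∃ q : Polynomial ℂ, q ≠ 0 ∧ (Polynomial.aeval shL q) (tv j E γ N f y) = 0 := by
  classical
  obtain ⟨W, hW, hmem⟩ := exists_fg hn hu e N
  obtain ⟨r, a, har, hrel⟩ := exists_dep hW (e * N)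
    (fun i => tp E N ((s ^ i) f) fun b => (s ^ i) (y b)) (fun i => tp_homog _ _ _ _)
    (fun i c => by
      have h1 := tp_eval E N ((s ^ i) f) (fun b => (s ^ i) (y b)) (RingHom.id K)
        (fun p => algebraMap ℂ K (c p))
      have h2 := hmem _ _ (hreg i) (fun a l => c (a, l))
      change MvPolynomial.eval₂ (RingHom.id K) _ _ ∈ W
      rw [h1]
      exact h2)
  refine ⟨∑ i ∈ Finset.range (r + 1), Polynomial.C (a i) * Polynomial.X ^ i, ?_, ?_⟩
  · intro h0
    apply har
    have h1 := congrArg (fun p => Polynomial.coeff p r) h0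
    simp only [Polynomial.finsetSum_coeff, Polynomial.coeff_C_mul_X_pow,
      Polynomial.coeff_zero] at h1
    rw [Finset.sum_ite_eq (Finset.range (r + 1)) r a, if_pos (Finset.mem_range.2 (by omega))] at h1
    exact h1
  · have h1 := congrArg (MvPolynomial.eval₂ (j : K →+* GG) (fun p => γ p.1 p.2)) hrel
    rw [MvPolynomial.eval₂_zero, MvPolynomial.eval₂_sum] at h1
    rw [map_sum, LinearMap.sum_apply, ← h1]
    refine Finset.sum_congr rfl fun i _ => ?_
    rw [MvPolynomial.eval₂_mul, MvPolynomial.eval₂_C, tp_eval, map_mul, Polynomial.aeval_C,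
      map_pow, Polynomial.aeval_X, Module.End.mul_apply, Module.algebraMap_end_apply]
    have h7 : a i • (shL ^ i) (tv j E γ N f y) =
        algebraMap ℂ GG (a i) * (shL ^ i) (tv j E γ N f y) :=
      Algebra.smul_def (a i) ((shL ^ i) (tv j E γ N f y))
    rw [h7]
    have h4 : (j : K →+* GG) (algebraMap ℂ K (a i)) = algebraMap ℂ GG (a i) := j.commutes _
    rw [h4]
    congr 1
    have h5 := sh_tv_pow hs hu hγ N f y i
    have h6 : ∀ (i : ℕ) (x : GG), (shL ^ i) x = (shG ^ i) x := by
      intro i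
      induction i with
      | zero => intro x; rfl
      | succ i ih =>
        intro x
        rw [pow_succ, Module.End.mul_apply, ih, pow_succ, RingHom.mul_def, RingHom.comp_apply]
        rfl
    rw [h6, h5]
    rfl

/-- **The ratios of regular tensors are algebraic over the special coordinates.** -/
theorem ratio_alg [Algebra.EssFiniteType ℂ K] {n : ℕ} (hn : Algebra.trdeg ℂ K = (n + 1 : ℕ))
    (hs : ∀ z, j (s z) = shG (j z)) (hc : ∀ a : K, s a = a → ∃ c : ℂ, algebraMap ℂ K c = a)
    {u : Fin (n + 1) → K} {L : Set (Fin (n + 1))} (h : Adapted s u L) {N : ℕ} (hN : 0 < N)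
    {y : Fin e → K} (hy : AlgebraicIndependent ℂ y) {f g : K} (hf : f ≠ 0)
    (hfr : PReg ℂ (n + 1) N f y) (hgr : PReg ℂ (n + 1) N g y) : IsAlgebraic (sf u L) (g / f) := by
  classical
  choose E hE using fun i => exists_der u h.bas (fun j => if i = j then (1 : K) else 0)
  have hu : Dual u E := ⟨h.bas, hE⟩
  obtain ⟨γ, hγ, hdet⟩ := exists_frame (j := j) (s := s) hn hu y hy
  set Δ : GG := (Matrix.of fun a b => ∑ l, γ a l * j (E l (y b))).det ^ N with hΔ
  have hΔu : IsUnit Δ := hdet.pow N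
  have hreg : ∀ {f : K}, PReg ℂ (n + 1) N f y → ∀ i : ℕ,
      PReg ℂ (n + 1) N ((s ^ i) f) fun b => (s ^ i) (y b) := fun hf i =>
    PReg.ext hN hn hn (s ^ i) hf
  obtain ⟨q1, hq1, h1⟩ := tv_dep hn hs hu hγ (hreg hfr)
  obtain ⟨q2, hq2, h2⟩ := tv_dep hn hs hu hγ (hreg hgr)
  let _ : Module K GG := Module.compHom GG (j : K →+* GG)
  have hsm : ∀ (a : K) (x : GG), a • x = j a * x := fun a x => rfl
  have htow : IsScalarTower ℂ K GG := ⟨fun c a x => by
    rw [hsm, hsm, map_smul, smul_mul_assoc]⟩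
  set V : Submodule ℂ GG := Submodule.span ℂ (Set.range fun k : ℕ => (shL ^ k) (tv j E γ N f y)) ⊔
    Submodule.span ℂ (Set.range fun k : ℕ => (shL ^ k) (tv j E γ N g y)) with hV
  have hVfg : V.FG := (cyc_fg shL _ hq1 h1).sup (cyc_fg shL _ hq2 h2)
  have hst0 : ∀ x : GG, ∀ v ∈ Submodule.span ℂ (Set.range fun k : ℕ => (shL ^ k) x),
      shL v ∈ Submodule.span ℂ (Set.range fun k : ℕ => (shL ^ k) x) := by
    intro x v hv
    induction hv using Submodule.span_induction with
    | mem z hz =>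
      obtain ⟨k, rfl⟩ := hz
      refine Submodule.subset_span ⟨k + 1, ?_⟩
      change (shL ^ (k + 1)) x = shL ((shL ^ k) x)
      rw [pow_succ', Module.End.mul_apply]
    | zero =>
      rw [map_zero]
      exact Submodule.zero_mem _
    | add z z' _ _ hz hz' =>
      rw [map_add]
      exact Submodule.add_mem _ hz hz'
    | smul c z _ hz =>
      rw [map_smul]
      exact Submodule.smul_mem _ _ hz
  have hst : ∀ v ∈ V, (shG : GG →+ GG) v ∈ V := by
    intro v hv
    rw [hV] at hv ⊢
    obtain ⟨v1, hv1, v2, hv2, rfl⟩ := Submodule.mem_sup.1 hv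
    rw [map_add]
    exact Submodule.add_mem_sup (hst0 _ v1 hv1) (hst0 _ v2 hv2)
  have hxV : ∀ x : GG, x ∈ Submodule.span ℂ (Set.range fun k : ℕ => (shL ^ k) x) := fun x =>
    Submodule.subset_span ⟨0, rfl⟩
  have hjf : j f ≠ 0 := fun h0 => hf (j.toRingHom.injective (h0.trans (map_zero j).symm))
  have hx0 : tv j E γ N f y ≠ 0 := by
    intro h0
    apply hjf
    have h3 : j f * Δ = 0 := h0
    exact (hΔu.mul_left_eq_zero).1 h3
  obtain ⟨F, hF, hFst, b, hb, hb0, hz⟩ := exists_small s (shG : GG →+ GG)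
    (fun a v => by
      change shG (j a * v) = j (s a) * shG v
      rw [map_mul, hs]) shG_inj hVfg hst (x := tv j E γ N f y)
    (Submodule.mem_sup_left (hxV _)) hx0
  have h3 : (g / f) * b ∈ F := by
    refine hz _ ?_
    have h4 : (g / f) • tv j E γ N f y = tv j E γ N g y := by
      rw [hsm]
      unfold tv
      rw [← mul_assoc, ← map_mul, div_mul_cancel₀ _ hf]
    rw [h4]
    exact Submodule.mem_sup_right (hxV _)
  have h4 := alg_fin hc h hF hFst h3
  have h5 := alg_fin hc h hF hFst hb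
  have h6 : g / f = (g / f) * b * b⁻¹ := by rw [mul_inv_cancel_right₀ hb0]
  rw [h6]
  exact h4.mul h5.inv

end

/-- transitivity -/
theorem alg_over {K : Type} [Field K] [Algebra ℂ K] {F : IntermediateField ℂ K} {Z : Set K}
    (hZ : ∀ z ∈ Z, IsAlgebraic F z) {a : K} (ha : IsAlgebraic (adjoin ℂ Z) a) :
    IsAlgebraic F a := by
  let A : IntermediateField F K := algebraicClosure F K
  have h1 : ∀ z ∈ adjoin ℂ Z, z ∈ A := by
    have h2 : adjoin ℂ Z ≤ A.restrictScalars ℂ := by
      rw [adjoin_le_iff]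
      intro z hz
      exact mem_algebraicClosure_iff.2 (hZ z hz)
    exact fun z hz => h2 hz
  have h2 : IsAlgebraic A a := alg_of_le A h1 ha
  have h3 : Algebra.IsAlgebraic F A := algebraicClosure.isAlgebraic F K
  exact h2.restrictScalars F

/-- The form `f_i (dy_1 ∧ … ∧ dy_e) ^ N` on the image. -/
structure OrbForms {K : Type} [Field K] [Algebra ℂ K] (w e N : ℕ) (f : Fin (e + 1) → K)
    (y : Fin e → K) : Prop where
  ind : AlgebraicIndependent ℂ y
  alg : ∀ b, IsAlgebraic (adjoin ℂ (Set.range fun i : Fin e => f i.succ / f 0)) (y b)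
  ne : f 0 ≠ 0
  reg : ∀ i, PReg ℂ w N (f i) y

/-- **No orbifold images of general type.** -/
theorem no_orb {K : Type} [Field K] [Algebra ℂ K] {j : K →ₐ[ℂ] GG} {s : K →ₐ[ℂ] K}
    [Algebra.EssFiniteType ℂ K] {n : ℕ} (hn : Algebra.trdeg ℂ K = (n + 1 : ℕ))
    (hs : ∀ z, j (s z) = shG (j z)) {e N : ℕ} (he : 0 < e) (hN : 0 < N)
    {f : Fin (e + 1) → K} {y : Fin e → K} : ¬ OrbForms (n + 1) e N f y := by
  rintro ⟨hind, halg, hne, hreg⟩
  have hc : ∀ a : K, s a = a → ∃ c : ℂ, algebraMap ℂ K c = a := by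
    intro a ha
    obtain ⟨c, hc⟩ := shG_const (x := j a) (by rw [← hs, ha])
    exact ⟨c, j.toRingHom.injective ((j.commutes c).trans hc)⟩
  obtain ⟨u, L, h⟩ := exists_adapted hc hn
  have h1 : ∀ b, IsAlgebraic (sf u L) (y b) := fun b => alg_over (by
    rintro _ ⟨i, rfl⟩
    exact ratio_alg hn hs hc h hN hind hne (hreg 0) (hreg i.succ)) (halg b)
  exact no_reg hn h he hN hne hind h1 (hreg 0)

end Pool.Agent.X332.SP
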