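import Mathlib
import Pool.Agent.X332.SP.NoOrb
import Pool.Agent.X332.GS.GenSp
import Pool.Agent.X332.GS.Img

/-!
Special varieties: no rational maps onto orbifold bases of general type.
-/

set_option autoImplicit false

namespace Pool.Agent.X332.SP

open Filter FF IntermediateField Module Pool.Agent.W602.GT Pool.Agent.TH143.GT
  Pool.Agent.TH143.HE Pool.Agent.TH143.TW Pool.Agent.TH143.DE Pool.Agent.TH143.GE
  Pool.Agent.X332.GT

/-- `X` is a variety of dimension `w` with function field `K`, and `E` is the function field of a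
variety `Y` of dimension `e` which is dominated by `X`: the orbifold base of the rational map from
`X` to `Y` is of general type. This means that for some `N > 0` there are rational sections
`f_i (dy_1 ∧ … ∧ dy_e) ^ N`, `i = 0, …, e`, of the saturation of the `N`-th power of the pull-back of
the canonical sheaf of `Y` (the `y_b` are algebraically independent functions on `Y`), which are
regular at all prime divisors of all models of `X`, and whose ratios are `e` algebraically
independent functions on `Y`. -/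
def OrbGT (k : Type) {K : Type} [Field k] [Field K] [Algebra k K] (w : ℕ)
    (E : IntermediateField k K) (e : ℕ) : Prop :=
  Algebra.trdeg k E = e ∧ ∃ N : ℕ, 0 < N ∧ ∃ y : Fin e → E, AlgebraicIndependent k y ∧
    ∃ f : Fin (e + 1) → K, f 0 ≠ 0 ∧ (∀ i : Fin e, f i.succ / f 0 ∈ E) ∧
      AlgebraicIndependent k (fun i : Fin e => f i.succ / f 0) ∧
      ∀ i, PReg k w N (f i) fun b => (y b : K)

/-- The varieties of dimension `w` with function field `K` are special in the sense of Campana: no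
rational map onto a variety of positive dimension has an orbifold base of general type. -/
def CSpecial (k K : Type) [Field k] [Field K] [Algebra k K] (w : ℕ) : Prop :=
  ∀ (E : IntermediateField k K) (e : ℕ), 1 ≤ e → ¬ OrbGT k w E e

/-- algebraic elements under an embedding -/
theorem alg_emb {K L : Type} [Field K] [Field L] [Algebra ℂ K] [Algebra ℂ L] (ι : K →ₐ[ℂ] L)
    {S : Set K} {a : K} (ha : IsAlgebraic (adjoin ℂ S) a) :
    IsAlgebraic (adjoin ℂ (ι '' S)) (ι a) := by
  have h0 : (adjoin ℂ S).map ι = adjoin ℂ (ι '' S) := adjoin_map ℂ S ι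
  let g : adjoin ℂ S →+* adjoin ℂ (ι '' S) :=
    { toFun := fun c => ⟨ι c, by
        rw [← h0]
        exact ⟨c, c.2, rfl⟩⟩
      map_one' := Subtype.ext (map_one ι)
      map_mul' := fun a b => Subtype.ext (map_mul ι (a : K) (b : K))
      map_zero' := Subtype.ext (map_zero ι)
      map_add' := fun a b => Subtype.ext (map_add ι (a : K) (b : K)) }
  exact ha.ringHom_of_comp_eq g (ι : K →+* L) g.injective (RingHom.ext fun c => rfl)

/-- a transcendence basis in a field of finite transcendence degree -/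
theorem basis_of_card {E : Type} [Field E] [Algebra ℂ E] {e : ℕ} (hE : Algebra.trdeg ℂ E = e)
    {r : Fin e → E} (hr : AlgebraicIndependent ℂ r) : IsTranscendenceBasis ℂ r :=
  hr.isTranscendenceBasis_of_lift_trdeg_le_of_finite (by rw [hE]; simp)

theorem OrbGT.forms {K : Type} [Field K] [Algebra ℂ K] {w e : ℕ} {E : IntermediateField ℂ K}
    (h : OrbGT ℂ w E e) : ∃ (N : ℕ) (f : Fin (e + 1) → K) (y : Fin e → K), 0 < N ∧
      OrbForms w e N f y := by
  obtain ⟨hE, N, hN, y, hy, f, hf, hfE, hind, hreg⟩ := h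
  refine ⟨N, f, fun b => y b, hN, ⟨hy.map' (f := E.val) E.val.toRingHom.injective, fun b => ?_,
    hf, hreg⟩⟩
  let r : Fin e → E := fun i => ⟨f i.succ / f 0, hfE i⟩
  have hr : AlgebraicIndependent ℂ r := by
    have h1 : AlgebraicIndependent ℂ (E.val ∘ r) := hind
    exact (E.val.algebraicIndependent_iff E.val.toRingHom.injective).1 h1
  have hb := basis_of_card hE hr
  have h2 : Algebra.IsAlgebraic (adjoin ℂ (Set.range r)) E := hb.isAlgebraic_field
  have h3 := alg_emb E.val (h2.isAlgebraic (y b))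
  have h4 : E.val '' Set.range r = Set.range fun i : Fin e => f i.succ / f 0 := by
    rw [← Set.range_comp]
    rfl
  rw [h4] at h3
  exact h3

theorem OrbForms.ext {K L : Type} [Field K] [Field L] [Algebra ℂ K] [Algebra ℂ L]
    [Algebra.EssFiniteType ℂ K] {v w e N : ℕ} (hN : 0 < N) (hv : Algebra.trdeg ℂ K = v)
    (hw : Algebra.trdeg ℂ L = w) (ι : K →ₐ[ℂ] L) {f : Fin (e + 1) → K} {y : Fin e → K}
    (h : OrbForms v e N f y) : OrbForms w e N (fun i => ι (f i)) fun b => ι (y b) := by
  refine ⟨h.ind.map' (f := ι) ι.toRingHom.injective, fun b => ?_, ?_, fun i =>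
    PReg.ext hN hv hw ι (h.reg i)⟩
  · have h1 := alg_emb ι (h.alg b)
    rw [← Set.range_comp] at h1
    have h2 : (ι ∘ fun i : Fin e => f i.succ / f 0) = fun i : Fin e => ι (f i.succ) / ι (f 0) := by
      funext i
      exact map_div₀ ι _ _
    rw [h2] at h1
    exact h1
  · exact (map_ne_zero ι).2 h.ne

/-- images of general type -/
theorem orbGT_of_gt {K F : Type} [Field K] [Algebra ℂ K] [Field F] [Algebra ℂ F]
    [Algebra.EssFiniteType ℂ F] {w e : ℕ} (hw : Algebra.trdeg ℂ K = w) (ι : F →ₐ[ℂ] K)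
    (h : GeneralType ℂ F e) : OrbGT ℂ w ι.fieldRange e := by
  classical
  obtain ⟨hF, N, hN, ω, hpl, hreg, D0, hD0, hind⟩ := h
  obtain ⟨y, hyb⟩ : ∃ y : Fin e → F, IsTranscendenceBasis ℂ y := by
    obtain ⟨B, hB⟩ := exists_isTranscendenceBasis ℂ F
    have hcard := hB.cardinalMk_eq_trdeg
    rw [hF] at hcard
    have hfin : Finite B := by
      rw [← Cardinal.lt_aleph0_iff_finite, hcard]
      exact Cardinal.natCast_lt_aleph0
    obtain ⟨m', ⟨e'⟩⟩ := Finite.exists_equiv_fin B
    obtain rfl : m' = e := by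
      rw [Cardinal.mk_congr e', Cardinal.mk_fin] at hcard
      exact_mod_cast hcard
    exact ⟨fun i => (e'.symm i : F), hB.comp_equiv e'.symm⟩
  choose D hD using fun i => exists_der y hyb (fun j => if i = j then (1 : F) else 0)
  have hDu : Dual y D := ⟨hyb, hD⟩
  have hω : ∀ i D', ω i D * (Matrix.of fun a b => D' a (y b)).det ^ N = ω i D' := by
    intro i D'
    have h1 := hpl i (Matrix.of fun i j => D' i (y j)) D
    have h2 : (fun i => ∑ j, (Matrix.of fun i j => D' i (y j)) i j • D j) = D' := by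
      funext i
      exact (hDu.expand (D' i)).symm
    rw [h2] at h1
    rw [h1, mul_comm]
  have hdet0 : (Matrix.of fun a b => D0 a (y b)).det ^ N ≠ 0 := by
    intro h
    apply hD0
    rw [← hω, h, mul_zero]
  have hf0 : ω 0 D ≠ 0 := by
    intro h
    apply hD0
    rw [← hω, h, zero_mul]
  have hind' : AlgebraicIndependent ℂ (fun i : Fin e => ω i.succ D / ω 0 D) := by
    have h1 : (fun i : Fin e => ω i.succ D / ω 0 D) = fun i => ω i.succ D0 / ω 0 D0 := by
      funext i
      rw [← hω i.succ D0, ← hω 0 D0, mul_div_mul_right _ _ hdet0]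
    rw [h1]
    exact hind
  have he := (AlgEquiv.ofInjectiveField ι).trdeg_eq
  refine ⟨he.symm.trans hF, N, hN, fun b => ⟨ι (y b), ⟨y b, rfl⟩⟩, ?_,
    fun i => ι (ω i D), ?_, fun i => ?_, ?_, fun i => ?_⟩
  · have h1 : AlgebraicIndependent ℂ (ι.fieldRange.val ∘ fun b => (⟨ι (y b), ⟨y b, rfl⟩⟩ :
        ι.fieldRange)) := hyb.1.map' (f := ι) ι.toRingHom.injective
    exact (ι.fieldRange.val.algebraicIndependent_iff ι.fieldRange.val.toRingHom.injective).1 h1
  · exact (map_ne_zero ι).2 hf0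
  · exact ⟨ω i.succ D / ω 0 D, map_div₀ ι _ _⟩
  · have h1 : (fun i : Fin e => ι (ω i.succ D) / ι (ω 0 D)) =
        fun i => ι (ω i.succ D / ω 0 D) := by
      funext i
      exact (map_div₀ ι _ _).symm
    rw [h1]
    exact hind'.map' (f := ι) ι.toRingHom.injective
  · refine PReg.ext hN hF hw ι (f := ω i D) (y := y) fun P hP D' hD' => ?_
    rw [hω]
    exact hreg P hP i D' hD'

/-- special varieties are not of general type -/
theorem CSpecial.not_gt {K : Type} [Field K] [Algebra ℂ K] [Algebra.EssFiniteType ℂ K] {w e : ℕ}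
    (hw : Algebra.trdeg ℂ K = w) (h : CSpecial ℂ K w) {F : Type} [Field F] [Algebra ℂ F]
    [Algebra.EssFiniteType ℂ F] (ι : F →ₐ[ℂ] K) (he : 1 ≤ e) : ¬ GeneralType ℂ F e :=
  fun hgt => h _ e he (orbGT_of_gt hw ι hgt)

/-- special varieties dominate special varieties only -/
theorem CSpecial.of_emb {K L : Type} [Field K] [Algebra ℂ K] [Algebra.EssFiniteType ℂ K]
    [Field L] [Algebra ℂ L] {v w : ℕ} (hv : Algebra.trdeg ℂ K = v) (hw : Algebra.trdeg ℂ L = w)
    (ι : K →ₐ[ℂ] L) (h : CSpecial ℂ L w) : CSpecial ℂ K v := by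
  rintro E e he ⟨hE, N, hN, y, hy, f, hf, hfE, hind, hreg⟩
  have hE' := (E.equivMap ι).trdeg_eq
  refine h (E.map ι) e he ⟨hE'.symm.trans hE, N, hN, fun b => ⟨ι (y b), ⟨y b, (y b).2, rfl⟩⟩, ?_,
    fun i => ι (f i), (map_ne_zero ι).2 hf, fun i => ⟨f i.succ / f 0, hfE i, map_div₀ ι _ _⟩, ?_,
    fun i => PReg.ext hN hv hw ι (hreg i)⟩
  · have h1 : AlgebraicIndependent ℂ ((E.map ι).val ∘ fun b => (⟨ι (y b), ⟨y b, (y b).2, rfl⟩⟩ :
        E.map ι)) := hy.map' (f := ι.comp E.val) (ι.comp E.val).toRingHom.injective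
    exact ((E.map ι).val.algebraicIndependent_iff (E.map ι).val.toRingHom.injective).1 h1
  · have h1 : (fun i : Fin e => ι (f i.succ) / ι (f 0)) = fun i => ι (f i.succ / f 0) := by
      funext i
      exact (map_div₀ ι _ _).symm
    rw [h1]
    exact hind.map' (f := ι) ι.toRingHom.injective

/-- Bogomolov sheaves given by orbifold bases of general type -/
theorem OrbGT.bog {K : Type} [Field K] [Algebra ℂ K] {w e : ℕ} {E : IntermediateField ℂ K}
    (h : OrbGT ℂ w E e) {Bd : Place ℂ K → Prop} : BogSheaf ℂ K w Bd e := by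
  classical
  obtain ⟨hE, N, hN, y, hy, f, hf, hfE, hind, hreg⟩ := h
  let ℓ : Derivation ℂ K K →ₗ[K] (Fin e → K) :=
    { toFun := fun D j => D (y j)
      map_add' := fun D D' => rfl
      map_smul' := fun c D => rfl }
  let θ : AlternatingMap K (Derivation ℂ K K) K (Fin e) :=
    (Matrix.detRowAlternating : AlternatingMap K (Fin e → K) K (Fin e)).compLinearMap ℓ
  have hθ : ∀ D : Fin e → Derivation ℂ K K, θ D = (Matrix.of fun i j => D i (y j)).det :=
    fun D => rfl
  refine ⟨θ, ?_, N, hN, f, fun P hP D hD j => ?_, fun P hP _ D hD j => ?_, hf, hind⟩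
  · intro h0
    obtain ⟨D, hD⟩ := exists_dual' (fun b => (y b : K))
      (hy.map' (f := E.val) E.val.toRingHom.injective)
    have h1 := hθ D
    rw [h0] at h1
    have h2 : (Matrix.of fun i j => D i (y j)) = (1 : Matrix (Fin e) (Fin e) K) := by
      ext i j
      rw [Matrix.of_apply, Matrix.one_apply]
      exact hD i j
    rw [h2, Matrix.det_one] at h1
    exact zero_ne_one h1
  · rw [hθ]
    exact hreg j P hP D fun i => reg_of_log (hD i)
  · rw [hθ]
    exact hreg j P hP D hD

theorem cspecial_of_special {K : Type} [Field K] [Algebra ℂ K] {w : ℕ} {Bd : Place ℂ K → Prop}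
    (h : Special ℂ K w Bd) : CSpecial ℂ K w := fun _ e he ho => h e he ho.bog

/-- **Shift-stable fields of germs are special.** -/
theorem no_orbGT {L : Type} [Field L] [Algebra ℂ L] {j : L →ₐ[ℂ] GG} {s : L →ₐ[ℂ] L}
    [Algebra.EssFiniteType ℂ L] (hs : ∀ z, j (s z) = shG (j z)) {K : Type} [Field K]
    [Algebra ℂ K] [Algebra.EssFiniteType ℂ K] {w : ℕ} (hw : Algebra.trdeg ℂ K = w)
    (ι : K →ₐ[ℂ] L) : CSpecial ℂ K w := by
  intro E e he h
  obtain ⟨N, f, y, hN, hf⟩ := h.forms
  obtain ⟨n, hn⟩ := trdeg_nat L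
  have h1 : OrbForms n e N (fun i => ι (f i)) fun b => ι (y b) := hf.ext hN hw hn ι
  have h2 : (Cardinal.mk (Fin e) : Cardinal) ≤ Algebra.trdeg ℂ L := h1.ind.cardinalMk_le_trdeg
  rw [hn, Cardinal.mk_fin] at h2
  have h3 : e ≤ n := by exact_mod_cast h2
  obtain ⟨n', rfl⟩ : ∃ n', n = n' + 1 := ⟨n - 1, by omega⟩
  exact no_orb hn hs he hN h1

/-- the shift of a field of coefficients -/
noncomputable def shKA {B : Subalgebra ℂ (ℕ → ℂ)} (hB : CoefField B) :
    KB B hB →ₐ[ℂ] KB B hB :=
  { shK hB with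
    commutes' := fun c => by
      apply jK_inj hB
      change algebraMap (KB B hB) GG (shK hB (algebraMap ℂ (KB B hB) c)) = _
      rw [← shG_alg, ← IsScalarTower.algebraMap_apply, ← gg.commutes c, shG_gg, jK_apply,
        ← IsScalarTower.algebraMap_apply, ← gg.commutes c]
      rfl }

theorem shKA_j {B : Subalgebra ℂ (ℕ → ℂ)} (hB : CoefField B) (z : KB B hB) :
    (jK hB) (shKA hB z) = shG (jK hB z) := (shG_alg hB z).symm

/-- the embedding given by a generic sequence -/
theorem exists_emb {N : ℕ} {K : Type} [Field K] [Algebra ℂ K] {y : Fin (N + 1) → K} (hy : y ≠ 0)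
    (hgen : coords ℂ y = ⊤) {B : Subalgebra ℂ (ℕ → ℂ)} (hB : CoefField B)
    {x : ℕ → Fin (N + 1) → ℂ} (hx : ∀ j, (fun m => x m j) ∈ B)
    (hX : Pool.Agent.X332.GS.GenSeq y x) : Nonempty (K →ₐ[ℂ] KB B hB) := by
  let z : Fin (N + 1) → KB B hB := fun j => cK hB ⟨_, hx j⟩
  have hz : ∀ G : MvPolynomial (Fin (N + 1)) ℂ, jK hB (MvPolynomial.aeval z G) =
      gg fun m => MvPolynomial.eval (x m) G := by
    intro G
    have h2 := MvPolynomial.comp_aeval_apply (f := z) (jK hB) G
    rw [h2]
    have h3 : (fun i => jK hB (z i)) = fun i => gg fun m => x m i := by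
      funext i
      exact jK_cK hB _
    rw [h3]
    have h4 := MvPolynomial.comp_aeval_apply (f := fun i => (fun m => x m i : ℕ → ℂ)) gg G
    rw [← h4]
    congr 1
    funext m
    have h7 := MvPolynomial.comp_aeval_apply (f := fun i => (fun m => x m i : ℕ → ℂ))
      (Pi.evalAlgHom ℂ (fun _ : ℕ => ℂ) m) G
    have h8 : (MvPolynomial.aeval (fun i => (fun m => x m i : ℕ → ℂ)) G : ℕ → ℂ) m =
      MvPolynomial.aeval (fun i => x m i) G := h7
    rw [h8, MvPolynomial.aeval_eq_eval]
  have hyz : ∀ G : MvPolynomial (Fin (N + 1)) ℂ, IsForm G →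
      (W602.GT.val y G = 0 ↔ W602.GT.val z G = 0) := by
    intro G hG
    have h1 : W602.GT.val z G = 0 ↔ ∀ᶠ m in atTop, MvPolynomial.eval (x m) G = 0 := by
      rw [← gg_zero, ← hz]
      exact (map_eq_zero_iff _ (jK_inj hB)).symm
    rw [h1]
    constructor
    · exact fun h => (hX G hG).1 h
    · intro h
      by_contra h0
      obtain ⟨m, h2, h3⟩ := (((hX G hG).2 h0).and h).exists
      exact h2 h3
  obtain ⟨i0, hi0⟩ := Function.ne_iff.1 hy
  have hi0' : y i0 ≠ 0 := hi0
  have hzi : z i0 ≠ 0 := by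
    intro h0
    apply hi0'
    have h1 := (hyz (MvPolynomial.X i0) ⟨1, MvPolynomial.isHomogeneous_X _ _⟩).2 (by
      unfold W602.GT.val
      rw [MvPolynomial.aeval_X]
      exact h0)
    unfold W602.GT.val at h1
    rwa [MvPolynomial.aeval_X] at h1
  obtain ⟨φ, -⟩ := exists_embedding hi0' hzi hgen hyz
  exact ⟨φ⟩

/-- **Generic sequences.** -/
theorem special_of_gen {N : ℕ} {K : Type} [Field K] [Algebra ℂ K] {y : Fin (N + 1) → K} {w : ℕ}
    (hw : Algebra.trdeg ℂ K = w) (hy : y ≠ 0) (hgen : coords ℂ y = ⊤)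
    {B : Subalgebra ℂ (ℕ → ℂ)} (hB : CoefField B) (hF : FinGen B)
    {x : ℕ → Fin (N + 1) → ℂ} (hx : ∀ j, (fun m => x m j) ∈ B)
    (hX : Pool.Agent.X332.GS.GenSeq y x) : CSpecial ℂ K w := by
  have hess := ess_of_finGen hB hF
  have hessK : Algebra.EssFiniteType ℂ K := by
    rw [← IntermediateField.fg_top_iff, ← hgen]
    apply IntermediateField.fg_adjoin_of_finite
    refine (Set.finite_range fun p : Fin (N + 1) × Fin (N + 1) => y p.1 / y p.2).subset ?_
    rintro _ ⟨i, j, -, rfl⟩
    exact ⟨(i, j), rfl⟩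
  obtain ⟨φ⟩ := exists_emb hy hgen hB hx hX
  exact no_orbGT (j := jK hB) (s := shKA hB) (shKA_j hB) hw φ

end Pool.Agent.X332.SP
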