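import Mathlib
import Pool.Agent.X332.SP.Def
import Pool.Agent.X332.GS.GrpSp

/-!
Generic sequences given by towers, group curves, and the special sets.
-/

set_option autoImplicit false

namespace Pool.Agent.X332.SP

open Filter FF Module MvPolynomial Pool.Agent.W602.GT
  Pool.Agent.TH143.HE Pool.Agent.TH143.TW Pool.Agent.TH143.DE Pool.Agent.TH143.GE
  Pool.Agent.X332.GT Pool.Agent.X332.GS Pool.Agent.X332.TO Pool.Agent.X332.OR

variable {N : ℕ} {K : Type} [Field K] [Algebra ℂ K] {w : ℕ} {y : Fin (N + 1) → K}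
  {B B' : Subalgebra ℂ (ℕ → ℂ)} {x : ℕ → Fin (N + 1) → ℂ}

/-- uniruled varieties are covered by rational curves -/
theorem covered_of_uniruled (hy : y ≠ 0) (hgen : coords ℂ y = ⊤)
    (h : H533R3.SL.Uniruled (relI y)) : Pool.Agent.TH143.GT.Covered K := by
  obtain ⟨L, _, _, p, hp0, hp1, i1, i2, hp2⟩ := h
  obtain ⟨i0, hi0⟩ := Function.ne_iff.1 hy
  have hi0' : y i0 ≠ 0 := hi0
  let f : Polynomial L →ₐ[ℂ] RatFunc L :=
    (IsScalarTower.toAlgHom (Polynomial L) (Polynomial L) (RatFunc L)).restrictScalars ℂ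
  have hf : ∀ q, f q = algebraMap (Polynomial L) (RatFunc L) q := fun q => rfl
  have hinj : Function.Injective f := RatFunc.algebraMap_injective L
  have hrel : ∀ G : MvPolynomial (Fin (N + 1)) ℂ, IsForm G →
      (W602.GT.val y G = 0 ↔ W602.GT.val (fun i => f (p i)) G = 0) := by
    intro G hG
    rw [Pool.Agent.X332.GS.val_map]
    constructor
    · intro h0
      rw [hp0 G (Ideal.subset_span ⟨hG, h0⟩), map_zero]
    · intro h0
      by_contra hne
      refine hp1 G hG (fun h => hne (relI_le y h)) ?_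
      have h1 := (map_eq_zero_iff f hinj).1 h0
      have h2 := MvPolynomial.comp_aeval_apply (f := p)
        ((Polynomial.aeval (1 : L)).restrictScalars ℂ) G
      have h3 : (fun i => ((Polynomial.aeval (1 : L)).restrictScalars ℂ : Polynomial L →ₐ[ℂ] L)
          (p i)) = fun i => (p i).eval 1 := by
        funext i
        exact Polynomial.aeval_def (1 : L) (p i)
      rw [← h3, ← h2, h1, map_zero]
  have hpi : f (p i0) ≠ 0 := by
    intro h0
    apply hi0'
    have h1 := (hrel (X i0) ⟨1, isHomogeneous_X _ _⟩).2 (by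
      unfold W602.GT.val
      rw [aeval_X]
      exact h0)
    unfold W602.GT.val at h1
    rwa [aeval_X] at h1
  obtain ⟨φ, hφ⟩ := exists_embedding hi0' hpi hgen hrel
  by_contra hcon
  unfold Pool.Agent.TH143.GT.Covered at hcon
  push Not at hcon
  have h2 : ∀ i, ∃ c : L, p i = Polynomial.C c * p i0 := by
    intro i
    obtain ⟨c, hc⟩ := hcon L inferInstance inferInstance φ (y i / y i0)
    refine ⟨c, hinj ?_⟩
    rw [hφ i, div_eq_iff hpi] at hc
    rw [hc, map_mul]
    rfl
  choose c hc using h2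
  apply hp2
  rw [hc i1, hc i2, Polynomial.eval_mul, Polynomial.eval_mul, Polynomial.eval_C,
    Polynomial.eval_C, Polynomial.C_mul, Polynomial.C_mul]
  ring

section

variable {k : Type} [Field k] [Algebra ℂ k] [Algebra k GG] [IsScalarTower ℂ k GG]
  {S : Subalgebra k GG}

theorem gen_split' (hw : Algebra.trdeg ℂ K = w) (hy : y ≠ 0)
    (hco : coords ℂ y = ⊤) (hess : Algebra.EssFiniteType ℂ k)
    (hst : ∀ x ∈ S, shG x ∈ S) (hfin : Module.Finite k S)
    (hgen : GenSeq y x) (hY : ∀ i, (gg fun m => x m i) ∈ S) : CSpecial ℂ K w := by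
  obtain ⟨M, hM, hp⟩ := exists_period hst hfin
  have hfld := Sa_fld hst hfin hM hp 0
  have hess' := Sa_ess hfin hM 0 hfld hess
  have hg := hgen.sub (f := fun m => 0 + M * m) (by
    refine tendsto_atTop_mono (fun m => ?_) tendsto_id
    change m ≤ 0 + M * m
    nlinarith)
  exact special_of_gen hw hy hco hfld.field (finGen_of_ess hess')
    (x := fun m => x (0 + M * m)) (fun j => ⟨_, hY j, rfl⟩) hg

end

theorem special_fin (hnu : ¬ H533R3.SL.Uniruled (relI y)) (hw : Algebra.trdeg ℂ K = w)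
    (hy : y ≠ 0) (hco : coords ℂ y = ⊤) (hB : CoefField B)
    (hess : Algebra.EssFiniteType ℂ (KB B hB)) (hgen : GenSeq y x)
    (hx : ∀ j, LinRec B fun m => x m j) : CSpecial ℂ K w := by
  classical
  obtain ⟨c, t, hℓx, hint⟩ := int_part hnu hy hB hgen hx
  let z : Fin (N + 1) → ℕ → ℂ := fun j m => x (m + t) j / eval (x (m + t)) (lf N c)
  have hℓt := eventually_shift hℓx t
  obtain ⟨S, hyS, hst, hfin⟩ := exists_common hB (f := fun j => gg fun m => x (m + t) j)
    (r := fun j => gg (z j)) (g := gg fun m => eval (x (m + t)) (lf N c))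
    (fun j => LF_of_linRec hB (LinRec.shift hB (hx j) t)) (lf_LF hB hx c t) (ne_unit hℓt)
    (fun j => by
      rw [← map_mul, gg_eq]
      filter_upwards [hℓt] with m hm
      rw [Pi.mul_apply]
      exact mul_div_cancel₀ _ hm) hint
  have hb : ∀ᶠ m in atTop, (eval (x (m + t)) (lf N c))⁻¹ ≠ 0 := by
    filter_upwards [hℓt] with m h2
    exact inv_ne_zero h2
  refine gen_split' hw hy hco hess hst hfin
    ((hgen.sub (f := fun m => m + t) (tendsto_add_atTop_nat t)).scale hb) fun j => ?_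
  have h1 : (fun m => (eval (x (m + t)) (lf N c))⁻¹ * x (m + t) j) = z j := by
    funext m
    change _ = x (m + t) j / eval (x (m + t)) (lf N c)
    rw [div_eq_mul_inv, mul_comm]
  rw [h1]
  exact hyS j

/-- **Towers.** -/
theorem special_tow (hnu : ¬ H533R3.SL.Uniruled (relI y)) (hw : Algebra.trdeg ℂ K = w)
    (hy : y ≠ 0) (hco : coords ℂ y = ⊤) (hB : TowF B) (hgen : GenSeq y x)
    (hx : ∀ j, LinRec B fun m => x m j) : CSpecial ℂ K w := by
  by_contra hs
  have h : NoGen y B := by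
    clear hgen hx
    induction hB with
    | base h1 h2 =>
      intro x hgen hx
      exact hs (special_fin hnu hw hy hco h1 (ess_of_finGen h1 h2) hgen hx)
    | step h1 h2 h3 ih => exact noGen_step hnu hy h1.field h2 h3 ih
  exact h x hgen hx

/-- **Images of generic sequences.** -/
theorem special_img (hco : coords ℂ y = ⊤) (hB : TowF B) (hx : GenSeq y x)
    (hrec : ∀ j, LinRec B fun m => x m j) (E : IntermediateField ℂ K) {v : ℕ}
    (hv : Algebra.trdeg ℂ E = v) (hnc : ¬ Pool.Agent.TH143.GT.Covered E) : CSpecial ℂ E v := by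
  have hfg : E.FG := Pool.Agent.Y333.IL.t_FGS K (Pool.Agent.Y377.IL.fg_of_coords hco) E
  have htop := Pool.Agent.Y377.IL.fg_top_of_fg hfg
  obtain ⟨M, p, z, hz⟩ := Pool.Agent.Y377.IL.exists_funField htop hv
  obtain ⟨H, hH⟩ := gen_image hco hx E.val z
  exact special_tow (fun h => hnc (covered_of_uniruled hz.sub.ne hz.sub.gen h)) hv hz.sub.ne
    hz.sub.gen hB hH fun j => linRec_eval hB.field hrec (H j)

/-- images of generic sequences over finitely generated fields -/
theorem ess_of_coords (hgen : coords ℂ y = ⊤) : Algebra.EssFiniteType ℂ K := by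
  rw [← IntermediateField.fg_top_iff, ← hgen]
  apply IntermediateField.fg_adjoin_of_finite
  refine (Set.finite_range fun p : Fin (N + 1) × Fin (N + 1) => y p.1 / y p.2).subset ?_
  rintro _ ⟨i, j, -, rfl⟩
  exact ⟨(i, j), rfl⟩

/-! ### Group curves -/

/-- The image of a group curve under a rational map, given by forms `H` of the same degree, is
contained and Zariski dense in the variety with the generic point `y`. -/
def DenseGroup {n : ℕ} {K : Type} [Field K] [Algebra ℂ K] (y : Fin (n + 1) → K) : Prop :=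
  ∃ (M e : ℕ) (φ : ℂ → Fin (M + 1) → ℂ) (H : Fin (n + 1) → MvPolynomial (Fin (M + 1)) ℂ),
    GroupCurve φ ∧ (∀ i, (H i).IsHomogeneous e) ∧
    ∀ G : MvPolynomial (Fin (n + 1)) ℂ, IsForm G →
      (W602.GT.val y G = 0 ↔ ∀ z, eval (fun i => eval (φ z) (H i)) G = 0)

/-- **Dense group curves.** -/
theorem gen_of_grp {n : ℕ} {K : Type} [Field K] [Algebra ℂ K] {y : Fin (n + 1) → K}
    (h : DenseGroup y) : HasGenSeq y := by
  obtain ⟨M, e, φ, H, hφ, hH, hrel⟩ := h
  obtain ⟨E, i0, hE, hi0, horb⟩ := exists_orbit hφ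
  have hcomp : ∀ (P : MvPolynomial (Fin (n + 1)) ℂ) (v : Fin (M + 1) → ℂ),
      eval v (bind₁ H P) = eval (fun i => eval v (H i)) P := fun P v => by
    rw [← MvPolynomial.aeval_eq_eval, MvPolynomial.aeval_bind₁]
    rw [MvPolynomial.aeval_eq_eval]
  obtain ⟨t, ht⟩ : ∃ t, t ∉ E := by
    by_contra hcon
    push Not at hcon
    have h1 : E = Set.univ := Set.eq_univ_of_forall hcon
    rw [h1] at hE
    exact not_countable_complex hE
  obtain ⟨hne0, ho, hfin⟩ := horb t ht
  have hev : ∀ P : MvPolynomial (Fin (M + 1)) ℂ, (∃ z, eval (φ z) P ≠ 0) →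
      ∀ᶠ m : ℕ in atTop, eval (φ (((m + 1 : ℕ) : ℂ) * t)) P ≠ 0 := by
    intro P hP
    have h1 := ((hfin P hP).preimage (f := fun m : ℕ => m + 1)
      (fun a _ b _ hab => Nat.succ_injective hab)).compl_mem_cofinite
    rw [Nat.cofinite_eq_atTop] at h1
    exact h1
  let X : ℕ → Fin (n + 1) → ℂ := fun m i =>
    eval (fun j => φ (((m + 1 : ℕ) : ℂ) * t) j / φ (((m + 1 : ℕ) : ℂ) * t) i0) (H i)
  have hXe : ∀ m i, X m i =
      (φ (((m + 1 : ℕ) : ℂ) * t) i0)⁻¹ ^ e * eval (φ (((m + 1 : ℕ) : ℂ) * t)) (H i) := by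
    intro m i
    rw [← Pool.Agent.TH143.GT.eval_smul_homog (hH i)]
    change eval _ (H i) = _
    congr 2
    funext j
    rw [div_eq_inv_mul]
  have hc0 : ∀ m : ℕ, (φ (((m + 1 : ℕ) : ℂ) * t) i0)⁻¹ ^ e ≠ 0 := fun m =>
    pow_ne_zero _ (inv_ne_zero (hne0 m))
  have hXev : ∀ (P : MvPolynomial (Fin (n + 1)) ℂ) (d : ℕ), P.IsHomogeneous d → ∀ m,
      eval (X m) P = ((φ (((m + 1 : ℕ) : ℂ) * t) i0)⁻¹ ^ e) ^ d *
        eval (fun i => eval (φ (((m + 1 : ℕ) : ℂ) * t)) (H i)) P := by
    intro P d hP m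
    rw [← Pool.Agent.TH143.GT.eval_smul_homog hP]
    congr 2
    funext i
    exact hXe m i
  refine ⟨_, X, coef_field ho, Pool.Agent.X332.TO.finGen_coef ho, fun j => poly_mem ho (H j), ?_⟩
  rintro G ⟨d, hd⟩
  constructor
  · intro h0
    have h1 := (hrel G ⟨d, hd⟩).1 h0
    refine Eventually.of_forall fun m => ?_
    rw [hXev G d hd, h1, mul_zero]
  · intro h0
    have h1 : ∃ z, eval (φ z) (bind₁ H G) ≠ 0 := by
      by_contra hcon
      push Not at hcon
      apply h0
      refine (hrel G ⟨d, hd⟩).2 fun z => ?_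
      rw [← hcomp]
      exact hcon z
    filter_upwards [hev _ h1] with m hm
    rw [hXev G d hd]
    rw [hcomp] at hm
    exact mul_ne_zero (pow_ne_zero _ (hc0 m)) hm

/-- generic sequences exist on special varieties only -/
theorem cspecial_of_hasGen {n : ℕ} {K : Type} [Field K] [Algebra ℂ K] {w : ℕ}
    {y : Fin (n + 1) → K} (hw : Algebra.trdeg ℂ K = w) (hy : y ≠ 0) (hgen : coords ℂ y = ⊤)
    (h : HasGenSeq y) : CSpecial ℂ K w := by
  obtain ⟨B, z, hB, hFg, hzB, hz⟩ := h
  exact special_of_gen hw hy hgen hB hFg hzB hz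

/-! ### The special sets -/

/-- The closure of the union of the special subvarieties of positive dimension of `X = {F = 0}` (as a
cone). -/
def SpCamp {n : ℕ} {ι : Type} (F : ι → MvPolynomial (Fin (n + 1)) ℂ) : Set (Fin (n + 1) → ℂ) :=
  {x | x ∈ Cone F ∧ ∀ G : MvPolynomial (Fin (n + 1)) ℂ, IsForm G →
    (∀ (K : Type) [Field K] [Algebra ℂ K] (w : ℕ) (y : Fin (n + 1) → K), 1 ≤ w →
      SubVar F K w y → CSpecial ℂ K w → W602.GT.val y G = 0) → W602.GT.val x G = 0}

variable {n : ℕ} {ι : Type} {F : ι → MvPolynomial (Fin (n + 1)) ℂ}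

theorem gen_sub_camp : SpGen F ⊆ SpCamp F := by
  rintro x ⟨hx, hx'⟩
  refine ⟨hx, fun G hG h => hx' G hG ?_⟩
  rintro K _ _ w y hw hy ⟨B, z, hB, hFg, hzB, hz⟩
  exact h K w y hw hy (special_of_gen hy.dim hy.ne hy.gen hB hFg hzB hz)

theorem camp_sub_alg : SpCamp F ⊆ SpAlg F := by
  rintro x ⟨hx, hx'⟩
  refine ⟨hx, fun G hG h => hx' G hG ?_⟩
  intro K _ _ w y hw hy hs
  have hess := ess_of_coords hy.gen
  exact h K w y hw hy (hs.not_gt hy.dim (AlgHom.id ℂ K) hw)

/-- no special subvarieties -/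
theorem dyn_of_no_special (hF : ∀ e, IsForm (F e))
    (h : ∀ (K : Type) [Field K] [Algebra ℂ K] (w : ℕ) (y : Fin (n + 1) → K), 1 ≤ w →
      SubVar F K w y → ¬ CSpecial ℂ K w) : SpDyn F = ∅ := by
  rw [Set.eq_empty_iff_forall_notMem]
  intro x hx
  rw [spDyn_eq_gen hF] at hx
  have h1 := (gen_sub_camp hx).2 1 ⟨0, isHomogeneous_one _ _⟩
    fun K _ _ w y hw hy hgt => absurd hgt (h K w y hw hy)
  have h2 : W602.GT.val x (1 : MvPolynomial (Fin (n + 1)) ℂ) = 1 := map_one _
  rw [h2] at h1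
  exact one_ne_zero h1

end Pool.Agent.X332.SP
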