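import Mathlib
import Pool.Agent.X332.SP.Gen

/-!
Zariski dense sequences over fields of coefficients are generic.
-/

set_option autoImplicit false

namespace Pool.Agent.X332.SP

open Filter FF Module MvPolynomial Pool.Agent.W602.GT
  Pool.Agent.TH143.HE Pool.Agent.TH143.TW Pool.Agent.TH143.DE Pool.Agent.TH143.GE
  Pool.Agent.X332.GT Pool.Agent.X332.GS Pool.Agent.X332.TO Pool.Agent.X332.OR

variable {N : ℕ} {K : Type} [Field K] [Algebra ℂ K] {w : ℕ} {y : Fin (N + 1) → K}
  {B B' : Subalgebra ℂ (ℕ → ℂ)} {x : ℕ → Fin (N + 1) → ℂ}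

/-- a linear form which vanishes at a point but not on the variety -/
theorem exists_lin (hw : 1 ≤ w) (hgen : coords ℂ y = ⊤) (hdim : Algebra.trdeg ℂ K = w)
    (p : Fin (N + 1) → ℂ) (hp : p ≠ 0) : ∃ ℓ : MvPolynomial (Fin (N + 1)) ℂ,
      IsForm ℓ ∧ W602.GT.val y ℓ ≠ 0 ∧ eval p ℓ = 0 := by
  by_contra hcon
  push Not at hcon
  have h1 : ∀ i j, y i * algebraMap ℂ K (p j) = y j * algebraMap ℂ K (p i) := by
    intro i j
    by_contra hne
    have hl : IsForm (C (p j) * X i - C (p i) * X j : MvPolynomial (Fin (N + 1)) ℂ) := by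
      refine ⟨1, ?_⟩
      have e1 := (isHomogeneous_C (Fin (N + 1)) (p j)).mul (isHomogeneous_X ℂ i)
      have e2 := (isHomogeneous_C (Fin (N + 1)) (p i)).mul (isHomogeneous_X ℂ j)
      rw [zero_add] at e1 e2
      exact e1.sub e2
    refine hcon _ hl (by
      unfold W602.GT.val
      rw [map_sub, map_mul, map_mul, aeval_C, aeval_C, aeval_X, aeval_X]
      intro h0
      apply hne
      linear_combination h0) ?_
    rw [map_sub, map_mul, map_mul, eval_C, eval_C, eval_X, eval_X]
    ring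
  obtain ⟨j0, hj0⟩ := Function.ne_iff.1 hp
  have hj0' : p j0 ≠ 0 := hj0
  have hy' : ∀ i, y i = algebraMap ℂ K (p i / p j0) * y j0 := by
    intro i
    have h2 := h1 i j0
    have h3 : algebraMap ℂ K (p j0) ≠ 0 := fun h => hj0' ((map_eq_zero_iff _
      (algebraMap ℂ K).injective).1 h)
    rw [map_div₀, div_mul_eq_mul_div, eq_div_iff h3, h2, mul_comm]
  have hbot : coords ℂ y = ⊥ := by
    apply le_antisymm _ bot_le
    unfold coords
    rw [IntermediateField.adjoin_le_iff]
    rintro _ ⟨i, j, hj, rfl⟩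
    have h2 := hy' i
    have h3 := hy' j
    have h4 : y j0 ≠ 0 := by
      intro h0
      apply hj
      rw [h3, h0, mul_zero]
    rw [h2, h3, mul_div_mul_right _ _ h4, ← map_div₀]
    exact IntermediateField.algebraMap_mem _ _
  rw [hbot] at hgen
  have h5 : Algebra.IsAlgebraic ℂ K := by
    refine ⟨fun z => ?_⟩
    have h6 : z ∈ (⊥ : IntermediateField ℂ K) := by
      rw [hgen]
      exact IntermediateField.mem_top
    obtain ⟨a, rfl⟩ := IntermediateField.mem_bot.1 h6
    exact isAlgebraic_algebraMap a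
  have h7 := (_root_.trdeg_eq_zero_iff (R := ℂ) (A := K)).2 h5
  rw [hdim] at h7
  have h8 : w = 0 := by exact_mod_cast h7
  omega

/-- The points `x 0, x 1, ...` lie on the variety with the generic point `y`, and they are Zariski
dense in it. -/
def DenseSeq (y : Fin (N + 1) → K) (x : ℕ → Fin (N + 1) → ℂ) : Prop :=
  (∀ m, x m ≠ 0) ∧ ∀ G : MvPolynomial (Fin (N + 1)) ℂ, IsForm G →
    (W602.GT.val y G = 0 ↔ ∀ m, eval (x m) G = 0)

/-- **Dense sequences over fields of coefficients are generic.** -/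
theorem DenseSeq.gen (hw : 1 ≤ w) (hgen : coords ℂ y = ⊤) (hdim : Algebra.trdeg ℂ K = w)
    (hB : CoefField B) (hx : ∀ j, (fun m => x m j) ∈ B) (h : DenseSeq y x) : GenSeq y x := by
  classical
  intro G hG
  refine ⟨fun h0 => Eventually.of_forall fun m => (h.2 G hG).1 h0 m, fun h0 => ?_⟩
  rcases hB.dich _ (eval_mem hx G) with h1 | h1
  · exfalso
    obtain ⟨m0, hm0⟩ := eventually_atTop.1 h1
    choose ℓ hℓ1 hℓ2 hℓ3 using fun m => exists_lin hw hgen hdim (x m) (h.1 m)
    choose d hd using hℓ1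
    obtain ⟨dG, hdG⟩ := hG
    let P : MvPolynomial (Fin (N + 1)) ℂ := G * ∏ m ∈ Finset.range m0, ℓ m
    have hP : IsForm P := ⟨_, hdG.mul (IsHomogeneous.prod _ _ d fun m _ => hd m)⟩
    have hP0 : W602.GT.val y P = 0 := by
      refine (h.2 P hP).2 fun m => ?_
      change eval (x m) (G * ∏ m ∈ Finset.range m0, ℓ m) = 0
      rw [map_mul]
      by_cases hm : m0 ≤ m
      · have h3 : eval (x m) G = 0 := hm0 m hm
        rw [h3, zero_mul]
      · rw [map_prod, Finset.prod_eq_zero (Finset.mem_range.2 (not_le.1 hm)) (hℓ3 m), mul_zero]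
    have h3 : W602.GT.val y P = W602.GT.val y G * ∏ m ∈ Finset.range m0, W602.GT.val y (ℓ m) := by
      change aeval y (G * ∏ m ∈ Finset.range m0, ℓ m) = _
      rw [map_mul, map_prod]
      rfl
    rw [h3] at hP0
    rcases mul_eq_zero.1 hP0 with h4 | h4
    · exact h0 h4
    · obtain ⟨m, -, h5⟩ := Finset.prod_eq_zero_iff.1 h4
      exact hℓ2 m h5
  · exact h1

/-- points are special -/
theorem cspecial_zero {K : Type} [Field K] [Algebra ℂ K] (hw : Algebra.trdeg ℂ K = (0 : ℕ)) :
    CSpecial ℂ K 0 := by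
  intro E e he h
  have h1 := h.1
  have h2 : Algebra.trdeg ℂ E ≤ Algebra.trdeg ℂ K :=
    trdeg_le_of_injective E.val E.val.toRingHom.injective
  rw [h1, hw] at h2
  have h3 : e ≤ 0 := by exact_mod_cast h2
  omega

/-- **Dense sequences.** -/
theorem special_of_dense (hw : Algebra.trdeg ℂ K = w) (hy : y ≠ 0) (hgen : coords ℂ y = ⊤)
    (hB : CoefField B) (hF : FinGen B) (hx : ∀ j, (fun m => x m j) ∈ B) (h : DenseSeq y x) :
    CSpecial ℂ K w := by
  rcases Nat.eq_zero_or_pos w with h0 | h0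
  · subst h0
    exact cspecial_zero hw
  · exact special_of_gen hw hy hgen hB hF hx (h.gen h0 hgen hw hB hx)

end Pool.Agent.X332.SP
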